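import Mathlib

open Set Filter Topology
open scoped ENNReal

namespace Pool.Agent.H45.GS

/-- The space `ℓ¹`. -/
abbrev L1 : Type := lp (fun _ : ℕ => ℝ) 1

/-- The space `ℓ²`. -/
abbrev L2 : Type := lp (fun _ : ℕ => ℝ) 2

namespace L1

lemma norm_eq (x : L1) : ‖x‖ = ∑' i, |x i| := by
  have := lp.norm_eq_tsum_rpow (p := 1) (by simp) x
  simpa using this

lemma hasSum_abs (x : L1) : HasSum (fun i => |x i|) ‖x‖ := by
  have := lp.hasSum_norm (p := 1) (by simp) x
  simpa using this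

lemma summable_abs (x : L1) : Summable (fun i => |x i|) := (hasSum_abs x).summable

/-- Truncation to the first `m` coordinates. -/
noncomputable def trunc (m : ℕ) (x : L1) : L1 := ∑ i ∈ Finset.range m, lp.single 1 i (x i)

lemma trunc_apply (m : ℕ) (x : L1) (i : ℕ) : trunc m x i = if i < m then x i else 0 := by
  rw [trunc, lp.coeFn_sum, Finset.sum_apply]
  by_cases h : i < m
  · rw [if_pos h, Finset.sum_eq_single i]
    · exact lp.single_apply_self (E := fun _ : ℕ => ℝ) 1 i (x i)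
    · intro j _ hj
      exact lp.single_apply_ne (E := fun _ : ℕ => ℝ) 1 j (x j) hj.symm
    · intro hi
      exact absurd (Finset.mem_range.2 h) hi
  · rw [if_neg h]
    apply Finset.sum_eq_zero
    intro j hj
    have : i ≠ j := fun hc => h (by rw [hc]; exact Finset.mem_range.1 hj)
    exact lp.single_apply_ne (E := fun _ : ℕ => ℝ) 1 j (x j) this

lemma tendsto_trunc (x : L1) : Tendsto (fun m => ‖x - trunc m x‖) atTop (𝓝 0) := by
  have h := (lp.hasSum_single (p := 1) (by simp) x).tendsto_sum_nat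
  have h2 : Tendsto (fun m => ‖x - trunc m x‖) atTop (𝓝 ‖x - x‖) :=
    (tendsto_const_nhds.sub h).norm
  simpa using h2

lemma norm_add_disjoint {x w : L1} (h : ∀ i, x i = 0 ∨ w i = 0) : ‖x + w‖ = ‖x‖ + ‖w‖ := by
  rw [norm_eq, norm_eq, norm_eq, ← (summable_abs x).tsum_add (summable_abs w)]
  apply tsum_congr
  intro i
  have : (x + w) i = x i + w i := by rw [lp.coeFn_add]; rfl
  rw [this]
  rcases h i with h1 | h1 <;> rw [h1] <;> simp

lemma norm_add_ge {v w : L1} {m : ℕ} (hw : ∀ i < m, w i = 0) :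
    ‖v‖ + ‖w‖ - 2 * ‖v - trunc m v‖ ≤ ‖v + w‖ := by
  have h1 : ‖trunc m v + w‖ = ‖trunc m v‖ + ‖w‖ := by
    apply norm_add_disjoint
    intro i
    rw [trunc_apply]
    by_cases hi : i < m
    · right; exact hw i hi
    · left; rw [if_neg hi]
  have h2 : ‖trunc m v + w‖ ≤ ‖v + w‖ + ‖v - trunc m v‖ := by
    have : trunc m v + w = (v + w) - (v - trunc m v) := by abel
    rw [this]; exact norm_sub_le _ _
  have h3 : ‖v‖ ≤ ‖trunc m v‖ + ‖v - trunc m v‖ := by
    have : v = trunc m v + (v - trunc m v) := by abel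
    calc ‖v‖ = ‖trunc m v + (v - trunc m v)‖ := by rw [← this]
      _ ≤ _ := norm_add_le _ _
  linarith

lemma norm_trunc_le (m : ℕ) (v : L1) : ‖trunc m v‖ ≤ ∑ i ∈ Finset.range m, |v i| := by
  refine (norm_sum_le _ _).trans ?_
  apply Finset.sum_le_sum
  intro i _
  rw [lp.norm_single (by simp), Real.norm_eq_abs]

end L1

/-- Coordinatewise convergence. -/
def CoordTendsto {p : ℝ≥0∞} (x : ℕ → lp (fun _ : ℕ => ℝ) p) (y : lp (fun _ : ℕ => ℝ) p) : Prop :=
  ∀ i, Tendsto (fun j => x j i) atTop (𝓝 (y i))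

/-- Coordinatewise sequential compactness of balls. -/
lemma exists_subseq {p : ℝ≥0∞} [Fact (1 ≤ p)] (R : ℝ)
    (x : ℕ → lp (fun _ : ℕ => ℝ) p) (hx : ∀ j, ‖x j‖ ≤ R) :
    ∃ φ : ℕ → ℕ, StrictMono φ ∧ ∃ y : lp (fun _ : ℕ => ℝ) p, CoordTendsto (fun j => x (φ j)) y := by
  have hp0 : p ≠ 0 := fun h => by
    have := (Fact.out : 1 ≤ p)
    rw [h] at this
    exact absurd this (by simp)
  have hcomp : IsCompact (Set.pi univ fun _ : ℕ => Icc (-R) R) :=
    isCompact_univ_pi fun _ => isCompact_Icc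
  have hmem : ∀ j, (fun i => x j i) ∈ Set.pi univ fun _ : ℕ => Icc (-R) R := by
    intro j i _
    have := (lp.norm_apply_le_norm hp0 (x j) i).trans (hx j)
    rw [Real.norm_eq_abs] at this
    exact abs_le.1 this
  obtain ⟨f, _, φ, hφ, hlim⟩ := hcomp.tendsto_subseq hmem
  have hbdd : Bornology.IsBounded (Set.range fun j => x (φ j)) := by
    rw [isBounded_iff_forall_norm_le]
    refine ⟨R, ?_⟩
    rintro _ ⟨j, rfl⟩
    exact hx _
  have hf : Memℓp f p := lp.memℓp_of_tendsto hbdd hlim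
  refine ⟨φ, hφ, ⟨f, hf⟩, fun i => ?_⟩
  exact (tendsto_pi_nhds.1 hlim) i

lemma norm_le_of_coordTendsto {p : ℝ≥0∞} [Fact (1 ≤ p)] {x : ℕ → lp (fun _ : ℕ => ℝ) p}
    {y : lp (fun _ : ℕ => ℝ) p} (h : CoordTendsto x y) {r : ℝ} (hr : ∃ᶠ j in atTop, ‖x j‖ ≤ r) :
    ‖y‖ ≤ r := by
  obtain ⟨φ, hφ, hφ'⟩ := extraction_of_frequently_atTop hr
  refine lp.norm_le_of_tendsto (l := atTop) (F := fun j => x (φ j)) (Eventually.of_forall hφ') ?_
  exact tendsto_pi_nhds.2 fun i => (h i).comp hφ.tendsto_atTop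

section operator

variable {Z : Type*} [NormedAddCommGroup Z] [NormedSpace ℝ Z] [CompleteSpace Z]

lemma summable_S (z : ℕ → Z) (hz : ∀ i, ‖z i‖ ≤ 1) (u : L2) :
    Summable fun i => ((1 / 2 : ℝ) ^ (i + 1) * u i) • z i := by
  refine Summable.of_norm_bounded (g := fun i => (1 / 2 : ℝ) ^ (i + 1) * ‖u‖) ?_ ?_
  · apply Summable.mul_right
    exact (summable_nat_add_iff (f := fun i => (1 / 2 : ℝ) ^ i) 1).2
      (summable_geometric_of_lt_one (by norm_num) (by norm_num))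
  · intro i
    rw [norm_smul, norm_mul, Real.norm_of_nonneg (by positivity)]
    have h1 : ‖u i‖ ≤ ‖u‖ := lp.norm_apply_le_norm (by simp) u i
    calc (1 / 2 : ℝ) ^ (i + 1) * ‖u i‖ * ‖z i‖ ≤ (1 / 2 : ℝ) ^ (i + 1) * ‖u‖ * 1 := by
          apply mul_le_mul _ (hz i) (norm_nonneg _) (by positivity)
          exact mul_le_mul_of_nonneg_left h1 (by positivity)
      _ = _ := mul_one _

lemma hasSum_half : HasSum (fun i : ℕ => (1 / 2 : ℝ) ^ (i + 1)) 1 := by
  have h := hasSum_geometric_two.mul_left (1 / 2)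
  simpa [pow_succ, mul_comm] using h

lemma norm_S_le (z : ℕ → Z) (hz : ∀ i, ‖z i‖ ≤ 1) (u : L2) :
    ‖∑' i, ((1 / 2 : ℝ) ^ (i + 1) * u i) • z i‖ ≤ 1 * ‖u‖ := by
  have hs : HasSum (fun i => (1 / 2 : ℝ) ^ (i + 1) * ‖u‖) (1 * ‖u‖) := hasSum_half.mul_right _
  refine tsum_of_norm_bounded hs ?_
  intro i
  rw [norm_smul, norm_mul, Real.norm_of_nonneg (by positivity)]
  have h1 : ‖u i‖ ≤ ‖u‖ := lp.norm_apply_le_norm (by simp) u i
  calc (1 / 2 : ℝ) ^ (i + 1) * ‖u i‖ * ‖z i‖ ≤ (1 / 2 : ℝ) ^ (i + 1) * ‖u‖ * 1 := by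
        apply mul_le_mul _ (hz i) (norm_nonneg _) (by positivity)
        exact mul_le_mul_of_nonneg_left h1 (by positivity)
    _ = _ := mul_one _

/-- The operator `u ↦ ∑ 2^{-(i+1)} u_i z_i` from `ℓ²` to `Z`. -/
noncomputable def opS (z : ℕ → Z) (hz : ∀ i, ‖z i‖ ≤ 1) : L2 →L[ℝ] Z :=
  LinearMap.mkContinuous
    { toFun := fun u => ∑' i, ((1 / 2 : ℝ) ^ (i + 1) * u i) • z i
      map_add' := fun u v => by
        rw [← (summable_S z hz u).tsum_add (summable_S z hz v)]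
        apply tsum_congr
        intro i
        have : (u + v) i = u i + v i := by rw [lp.coeFn_add]; rfl
        rw [this, mul_add, add_smul]
      map_smul' := fun c u => by
        rw [RingHom.id_apply, ← (summable_S z hz u).tsum_const_smul]
        apply tsum_congr
        intro i
        have : (c • u) i = c * u i := by rw [lp.coeFn_smul]; rfl
        rw [this, smul_smul]
        congr 1
        ring }
    1 (fun u => norm_S_le z hz u)

lemma opS_apply (z : ℕ → Z) (hz : ∀ i, ‖z i‖ ≤ 1) (u : L2) :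
    opS z hz u = ∑' i, ((1 / 2 : ℝ) ^ (i + 1) * u i) • z i := rfl

lemma norm_opS_apply_le (z : ℕ → Z) (hz : ∀ i, ‖z i‖ ≤ 1) (u : L2) : ‖opS z hz u‖ ≤ ‖u‖ := by
  have := norm_S_le z hz u
  rwa [one_mul] at this

/-- Compactness: coordinatewise convergent bounded sequences are mapped to convergent ones. -/
lemma opS_tendsto (z : ℕ → Z) (hz : ∀ i, ‖z i‖ ≤ 1) {u : ℕ → L2} {v : L2} (h : CoordTendsto u v)
    {R : ℝ} (hR : ∀ j, ‖u j‖ ≤ R) : Tendsto (fun j => opS z hz (u j)) atTop (𝓝 (opS z hz v)) := by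
  simp only [opS_apply]
  refine tendsto_tsum_of_dominated_convergence (bound := fun i => (1 / 2 : ℝ) ^ (i + 1) * R)
    (hasSum_half.summable.mul_right _) ?_ (Eventually.of_forall ?_)
  · intro i
    exact ((h i).const_mul _).smul_const _
  · intro j i
    rw [norm_smul, norm_mul, Real.norm_of_nonneg (by positivity)]
    have h1 : ‖u j i‖ ≤ R := (lp.norm_apply_le_norm (by simp) (u j) i).trans (hR j)
    have hR0 : 0 ≤ R := (norm_nonneg _).trans (hR j)
    calc (1 / 2 : ℝ) ^ (i + 1) * ‖u j i‖ * ‖z i‖ ≤ (1 / 2 : ℝ) ^ (i + 1) * R * 1 := by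
          apply mul_le_mul _ (hz i) (norm_nonneg _) (by positivity)
          exact mul_le_mul_of_nonneg_left h1 (by positivity)
      _ = _ := mul_one _

lemma opS_single (z : ℕ → Z) (hz : ∀ i, ‖z i‖ ≤ 1) (i : ℕ) (a : ℝ) :
    opS z hz (lp.single 2 i a) = ((1 / 2 : ℝ) ^ (i + 1) * a) • z i := by
  rw [opS_apply, tsum_eq_single i]
  · rw [lp.single_apply_self (E := fun _ : ℕ => ℝ) 2 i a]
  · intro j hj
    rw [lp.single_apply_ne (E := fun _ : ℕ => ℝ) 2 i a hj, mul_zero, zero_smul]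

/-- The range of `opS` is dense if the span of the `z i` is. -/
lemma dense_opS (z : ℕ → Z) (hz : ∀ i, ‖z i‖ ≤ 1)
    (hd : Dense (Submodule.span ℝ (range z) : Set Z)) : DenseRange (opS z hz) := by
  have h1 : (Submodule.span ℝ (range z) : Set Z) ⊆ range (opS z hz) := by
    have : Submodule.span ℝ (range z) ≤ LinearMap.range (opS z hz : L2 →ₗ[ℝ] Z) := by
      rw [Submodule.span_le]
      rintro _ ⟨i, rfl⟩
      refine ⟨lp.single 2 i ((2 : ℝ) ^ (i + 1)), ?_⟩
      have := opS_single z hz i ((2 : ℝ) ^ (i + 1))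
      rw [← mul_pow] at this
      norm_num at this
      exact this
    intro w hw
    obtain ⟨u, hu⟩ := this hw
    exact ⟨u, hu⟩
  exact hd.mono h1

/-- Packaging: a separable space admits a compact-type operator from `ℓ²` with dense range. -/
lemma exists_op (Z : Type*) [NormedAddCommGroup Z] [NormedSpace ℝ Z] [CompleteSpace Z]
    [TopologicalSpace.SeparableSpace Z] :
    ∃ S : L2 →L[ℝ] Z, DenseRange S ∧ (∀ u, ‖S u‖ ≤ ‖u‖) ∧
      ∀ (u : ℕ → L2) (v : L2) (R : ℝ), CoordTendsto u v → (∀ j, ‖u j‖ ≤ R) →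
        Tendsto (fun j => S (u j)) atTop (𝓝 (S v)) := by
  obtain ⟨w, hw⟩ := TopologicalSpace.exists_dense_seq Z
  set z : ℕ → Z := fun i => (1 + ‖w i‖)⁻¹ • w i with hzdef
  have hz : ∀ i, ‖z i‖ ≤ 1 := by
    intro i
    have hpos : 0 < 1 + ‖w i‖ := by positivity
    rw [hzdef]
    simp only
    rw [norm_smul, Real.norm_of_nonneg (inv_nonneg.2 hpos.le), inv_mul_le_iff₀ hpos]
    linarith
  have hd : Dense (Submodule.span ℝ (range z) : Set Z) := by
    refine hw.mono ?_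
    rintro _ ⟨i, rfl⟩
    have hpos : (1 + ‖w i‖) ≠ 0 := by positivity
    have : w i = (1 + ‖w i‖) • z i := by
      rw [hzdef]; simp only
      rw [smul_smul, mul_inv_cancel₀ hpos, one_smul]
    rw [this]
    exact Submodule.smul_mem _ _ (Submodule.subset_span ⟨i, rfl⟩)
  exact ⟨opS z hz, dense_opS z hz hd, norm_opS_apply_le z hz,
    fun u v R h hR => opS_tendsto z hz h hR⟩

end operator

end Pool.Agent.H45.GS
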