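import Mathlib
import Pool.Agent.H45.GS.L1

open Set Filter Topology
open scoped ENNReal

namespace Pool.Agent.H45.GS

/-- The submodule of vectors of `ℓ¹` vanishing on the first `n` coordinates. -/
def Tail (n : ℕ) : Submodule ℝ L1 where
  carrier := {v | ∀ i < n, v i = 0}
  add_mem' := by
    intro a b ha hb i hi
    have : (a + b) i = a i + b i := by rw [lp.coeFn_add]; rfl
    rw [this, ha i hi, hb i hi, add_zero]
  zero_mem' := by intro i _; rfl
  smul_mem' := by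
    intro c a ha i hi
    have : (c • a) i = c * a i := by rw [lp.coeFn_smul]; rfl
    rw [this, ha i hi, mul_zero]

lemma mem_Tail {n : ℕ} {v : L1} : v ∈ Tail n ↔ ∀ i < n, v i = 0 := Iff.rfl

lemma Tail_anti {n m : ℕ} (h : n ≤ m) {v : L1} (hv : v ∈ Tail m) : v ∈ Tail n :=
  fun i hi => hv i (lt_of_lt_of_le hi h)

lemma sub_trunc_mem_Tail (n : ℕ) (v : L1) : v - L1.trunc n v ∈ Tail n := by
  intro i hi
  have : (v - L1.trunc n v) i = v i - L1.trunc n v i := by rw [lp.coeFn_sub]; rfl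
  rw [this, L1.trunc_apply, if_pos hi, sub_self]

variable {Z : Type*} [NormedAddCommGroup Z] [NormedSpace ℝ Z] (ι : L1 →ₗᵢ[ℝ] Z)

/-- `rhoN n z = inf_{v ∈ Tail n} (‖z + ι v‖ - ‖v‖ / 2)`. -/
noncomputable def rhoN (n : ℕ) (z : Z) : ℝ := ⨅ v : Tail n, (‖z + ι v‖ - ‖(v : L1)‖ / 2)

lemma rhoN_aux (z : Z) (v : L1) : ‖v‖ / 2 - ‖z‖ ≤ ‖z + ι v‖ - ‖v‖ / 2 := by
  have h1 : ‖ι v‖ = ‖v‖ := ι.norm_map v
  have h2 : ‖ι v‖ ≤ ‖z + ι v‖ + ‖z‖ := by
    have : ι v = (z + ι v) - z := by abel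
    calc ‖ι v‖ = ‖(z + ι v) - z‖ := by rw [← this]
      _ ≤ _ := norm_sub_le _ _
  linarith

lemma rhoN_bdd (n : ℕ) (z : Z) :
    BddBelow (range fun v : Tail n => ‖z + ι v‖ - ‖(v : L1)‖ / 2) := by
  refine ⟨-‖z‖, ?_⟩
  rintro _ ⟨v, rfl⟩
  have := rhoN_aux ι z v
  have h2 := norm_nonneg (v : L1)
  simp only
  linarith

lemma rhoN_le {n : ℕ} (z : Z) {v : L1} (hv : v ∈ Tail n) : rhoN ι n z ≤ ‖z + ι v‖ - ‖v‖ / 2 :=
  ciInf_le (rhoN_bdd ι n z) ⟨v, hv⟩

lemma le_rhoN {n : ℕ} {z : Z} {r : ℝ} (h : ∀ v ∈ Tail n, r ≤ ‖z + ι v‖ - ‖v‖ / 2) :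
    r ≤ rhoN ι n z :=
  le_ciInf fun v => h v v.2

lemma exists_rhoN_lt (n : ℕ) (z : Z) {e : ℝ} (he : 0 < e) :
    ∃ v ∈ Tail n, ‖z + ι v‖ - ‖v‖ / 2 < rhoN ι n z + e := by
  obtain ⟨v, hv⟩ := exists_lt_of_ciInf_lt (show rhoN ι n z < rhoN ι n z + e by linarith)
  exact ⟨v, v.2, hv⟩

lemma rhoN_le_norm (n : ℕ) (z : Z) : rhoN ι n z ≤ ‖z‖ := by
  have := rhoN_le ι z (Submodule.zero_mem (Tail n))
  simpa using this

lemma neg_norm_le_rhoN (n : ℕ) (z : Z) : -‖z‖ ≤ rhoN ι n z :=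
  le_rhoN ι fun v _ => by
    have := rhoN_aux ι z v
    have h2 := norm_nonneg (v : L1)
    linarith

/-- `rho z = sup_n rhoN n z`. -/
noncomputable def rho (z : Z) : ℝ := ⨆ n, rhoN ι n z

lemma rhoN_bddAbove (z : Z) : BddAbove (range fun n => rhoN ι n z) := by
  refine ⟨‖z‖, ?_⟩
  rintro _ ⟨n, rfl⟩
  exact rhoN_le_norm ι n z

lemma rhoN_le_rho (n : ℕ) (z : Z) : rhoN ι n z ≤ rho ι z := le_ciSup (rhoN_bddAbove ι z) n

lemma rho_le {z : Z} {r : ℝ} (h : ∀ n, rhoN ι n z ≤ r) : rho ι z ≤ r := ciSup_le h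

lemma rho_le_norm (z : Z) : rho ι z ≤ ‖z‖ := rho_le ι fun n => rhoN_le_norm ι n z

lemma exists_lt_rhoN (z : Z) {e : ℝ} (he : 0 < e) : ∃ n, rho ι z - e < rhoN ι n z :=
  exists_lt_of_lt_ciSup (show rho ι z - e < rho ι z by linarith)

lemma rho_neg (z : Z) : rho ι (-z) = rho ι z := by
  have key : ∀ (n : ℕ) (w : Z), rhoN ι n (-w) ≤ rhoN ι n w := by
    intro n w
    refine le_rhoN ι fun v hv => ?_
    have := rhoN_le ι (-w) ((Tail n).neg_mem hv)
    rw [map_neg, ← neg_add, norm_neg, norm_neg] at this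
    exact this
  apply le_antisymm
  · exact rho_le ι fun n => (key n z).trans (rhoN_le_rho ι n z)
  · refine rho_le ι fun n => ?_
    have := key n (-z)
    rw [neg_neg] at this
    exact this.trans (rhoN_le_rho ι n (-z))

lemma exists_trunc_small (v : L1) (n : ℕ) {e : ℝ} (he : 0 < e) :
    ∃ m, n ≤ m ∧ ‖v - L1.trunc m v‖ < e := by
  have h := (L1.tendsto_trunc v).eventually_lt_const he
  obtain ⟨m, hm1, hm2⟩ := (h.and (eventually_ge_atTop n)).exists
  exact ⟨m, hm2, hm1⟩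

lemma rho_add_le (z w : Z) : rho ι (z + w) ≤ rho ι z + rho ι w := by
  refine rho_le ι fun n => ?_
  refine le_of_forall_pos_le_add fun e he => ?_
  obtain ⟨v, hv, hv'⟩ := exists_rhoN_lt ι n z (e := e / 3) (by linarith)
  obtain ⟨m, hm, hm'⟩ := exists_trunc_small v n (e := e / 3) (by linarith)
  obtain ⟨v', hvt, hv''⟩ := exists_rhoN_lt ι m w (e := e / 3) (by linarith)
  have h1 := rhoN_le ι (z + w) ((Tail n).add_mem hv (Tail_anti hm hvt))
  have h2 : ‖z + w + ι (v + v')‖ ≤ ‖z + ι v‖ + ‖w + ι v'‖ := by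
    rw [map_add]
    have : z + w + (ι v + ι v') = (z + ι v) + (w + ι v') := by abel
    rw [this]; exact norm_add_le _ _
  have h3 := L1.norm_add_ge (v := v) hvt
  have h4 := rhoN_le_rho ι n z
  have h5 := rhoN_le_rho ι m w
  linarith

lemma rho_zero : rho ι 0 = 0 := by
  apply le_antisymm
  · have := rho_le_norm ι (0 : Z)
    simpa using this
  · have h1 : (0 : ℝ) ≤ rhoN ι 0 (0 : Z) := by
      refine le_rhoN ι fun v _ => ?_
      have := rhoN_aux ι 0 v
      rw [norm_zero] at this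
      have h2 := norm_nonneg v
      linarith
    exact h1.trans (rhoN_le_rho ι 0 0)

lemma rho_nonneg (z : Z) : 0 ≤ rho ι z := by
  have h := rho_add_le ι z (-z)
  rw [add_neg_cancel, rho_zero, rho_neg] at h
  linarith

lemma rho_sub_le (z w : Z) : rho ι z - rho ι w ≤ ‖z - w‖ := by
  have h := rho_add_le ι (z - w) w
  rw [sub_add_cancel] at h
  have := rho_le_norm ι (z - w)
  linarith

lemma rho_smul_le {c : ℝ} (hc : 0 ≤ c) (z : Z) : rho ι (c • z) ≤ c * rho ι z := by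
  rcases hc.eq_or_lt with rfl | hc
  · rw [zero_smul, rho_zero, zero_mul]
  · refine rho_le ι fun n => ?_
    refine le_of_forall_pos_le_add fun e he => ?_
    obtain ⟨v, hv, hv'⟩ := exists_rhoN_lt ι n z (e := e / c) (div_pos he hc)
    have h1 := rhoN_le ι (c • z) ((Tail n).smul_mem c hv)
    rw [map_smul, ← smul_add, norm_smul, norm_smul, Real.norm_of_nonneg hc.le] at h1
    have h2 := rhoN_le_rho ι n z
    have h3 : c * (‖z + ι v‖ - ‖v‖ / 2) < c * (rho ι z + e / c) :=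
      mul_lt_mul_of_pos_left (by linarith) hc
    have h4 : c * (rho ι z + e / c) = c * rho ι z + e := by field_simp
    linarith

lemma rho_convex : ConvexOn ℝ univ (rho ι) := by
  refine ⟨convex_univ, ?_⟩
  intro x _ y _ p q hp hq _
  calc rho ι (p • x + q • y) ≤ rho ι (p • x) + rho ι (q • y) := rho_add_le ι _ _
    _ ≤ p * rho ι x + q * rho ι y := add_le_add (rho_smul_le ι hp x) (rho_smul_le ι hq y)

lemma rho_add_tail (z : Z) {n : ℕ} {v : L1} (hv : v ∈ Tail n) :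
    rhoN ι n z + ‖v‖ / 2 ≤ rho ι (z + ι v) := by
  refine le_of_forall_pos_le_add fun e he => ?_
  obtain ⟨m, hm, hm'⟩ := exists_trunc_small v n he
  have h1 : rhoN ι n z + ‖v‖ / 2 - e ≤ rhoN ι m (z + ι v) := by
    refine le_rhoN ι fun w hw => ?_
    have h2 := rhoN_le ι z ((Tail n).add_mem hv (Tail_anti hm hw))
    have h3 := L1.norm_add_ge (v := v) hw
    rw [map_add, ← add_assoc] at h2
    linarith
  have := rhoN_le_rho ι m (z + ι v)
  linarith

lemma le_rho_iota (x : L1) : ‖x‖ / 2 ≤ rho ι (ι x) := by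
  have h1 := rho_add_tail ι 0 (n := 0) (v := x) (by intro i hi; exact absurd hi (Nat.not_lt_zero i))
  have h2 : (0 : ℝ) ≤ rhoN ι 0 (0 : Z) := by
    refine le_rhoN ι fun v _ => ?_
    have := rhoN_aux ι 0 v
    rw [norm_zero] at this
    have h2 := norm_nonneg v
    linarith
  rw [zero_add] at h1
  linarith

lemma tendsto_trunc_of_coordTendsto {v : ℕ → L1} (h : CoordTendsto v 0) (n : ℕ) :
    Tendsto (fun j => ‖L1.trunc n (v j)‖) atTop (𝓝 0) := by
  have h1 : Tendsto (fun j => ∑ i ∈ Finset.range n, |v j i|) atTop (𝓝 0) := by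
    have : Tendsto (fun j => ∑ i ∈ Finset.range n, |v j i|) atTop
        (𝓝 (∑ i ∈ Finset.range n, |(0 : L1) i|)) :=
      tendsto_finsetSum _ fun i _ => (h i).abs
    simpa using this
  exact squeeze_zero (fun j => norm_nonneg _) (fun j => L1.norm_trunc_le n (v j)) h1

/-- The key lower semicontinuity property of `rho`. -/
lemma rho_lsc {y : ℕ → Z} {z : Z} {v : ℕ → L1} {x : L1} (hy : Tendsto y atTop (𝓝 z))
    (hv : CoordTendsto v x) {e : ℝ} (he : 0 < e) :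
    ∀ᶠ j in atTop, rho ι (z + ι x) + ‖v j - x‖ / 2 - e ≤ rho ι (y j + ι (v j)) := by
  obtain ⟨n, hn⟩ := exists_lt_rhoN ι (z + ι x) (e := e / 4) (by linarith)
  have hv0 : CoordTendsto (fun j => v j - x) 0 := by
    intro i
    have h1 : (fun j => (v j - x) i) = fun j => v j i - x i := by
      funext j
      rw [lp.coeFn_sub]; rfl
    have h2 := (hv i).sub_const (x i)
    rw [sub_self] at h2
    simp only [h1]
    exact h2
  have h1 := (tendsto_trunc_of_coordTendsto hv0 n).eventually_lt_const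
    (show (0 : ℝ) < e / 4 by linarith)
  have h2 : ∀ᶠ j in atTop, ‖y j - z‖ < e / 4 := by
    have : Tendsto (fun j => ‖y j - z‖) atTop (𝓝 0) := tendsto_iff_norm_sub_tendsto_zero.1 hy
    exact this.eventually_lt_const (by linarith)
  filter_upwards [h1, h2] with j hj1 hj2
  obtain ⟨w, hw⟩ : ∃ w, w = v j - x := ⟨_, rfl⟩
  rw [← hw] at hj1 ⊢
  have h3 := rho_add_tail ι (z + ι x) (sub_trunc_mem_Tail n w)
  have h4 := rho_sub_le ι (z + ι x + ι (w - L1.trunc n w)) (y j + ι (v j))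
  have h5 : z + ι x + ι (w - L1.trunc n w) - (y j + ι (v j)) =
      (z - y j) - ι (L1.trunc n w) := by
    rw [map_sub, hw, map_sub]; abel
  rw [h5] at h4
  have h6 : ‖(z - y j) - ι (L1.trunc n w)‖ ≤ ‖y j - z‖ + ‖L1.trunc n w‖ := by
    refine (norm_sub_le _ _).trans ?_
    rw [ι.norm_map, norm_sub_rev]
  have h7 : ‖w‖ ≤ ‖w - L1.trunc n w‖ + ‖L1.trunc n w‖ := by
    have : w = (w - L1.trunc n w) + L1.trunc n w := by abel
    calc ‖w‖ = ‖(w - L1.trunc n w) + L1.trunc n w‖ := by rw [← this]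
      _ ≤ _ := norm_add_le _ _
  linarith

end Pool.Agent.H45.GS
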