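import Mathlib
import Pool.Agent.H45.GS.Rho

open Set Filter Topology
open scoped ENNReal

namespace Pool.Agent.H45.GS

instance : TopologicalSpace.SeparableSpace L1 := by
  rw [← TopologicalSpace.isSeparable_univ_iff]
  have h1 : TopologicalSpace.IsSeparable
      (Set.range fun i : ℕ => (lp.single 1 i (1 : ℝ) : L1)) :=
    (countable_range _).isSeparable
  have h2 := (h1.span (R := ℝ)).closure
  refine h2.mono ?_
  intro x _
  have hs := lp.hasSum_single (p := 1) (by simp) x
  refine mem_closure_of_tendsto hs (Eventually.of_forall fun s => ?_)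
  refine Submodule.sum_mem _ fun i _ => ?_
  have : (lp.single 1 i (x i) : L1) = (x i) • (lp.single 1 i (1 : ℝ) : L1) := by
    rw [← lp.single_smul]
    simp
  rw [this]
  exact Submodule.smul_mem _ _ (Submodule.subset_span ⟨i, rfl⟩)

lemma L1_not_finiteDimensional : ¬ FiniteDimensional ℝ L1 := by
  intro h
  have hli : LinearIndependent ℝ (fun i : ℕ => (lp.single 1 i (1 : ℝ) : L1)) := by
    rw [linearIndependent_iff']
    intro s g hg i hi
    have h1 : (∑ j ∈ s, g j • (lp.single 1 j (1 : ℝ) : L1)) i = (0 : L1) i := by rw [hg]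
    rw [lp.coeFn_sum, Finset.sum_apply, Finset.sum_eq_single i] at h1
    · have h2 : (g i • (lp.single 1 i (1 : ℝ) : L1)) i = g i * (lp.single 1 i (1 : ℝ) : L1) i := by
        rw [lp.coeFn_smul]; rfl
      rw [h2, lp.single_apply_self (E := fun _ : ℕ => ℝ) 1 i (1 : ℝ), mul_one] at h1
      exact h1
    · intro j _ hj
      have h2 : (g j • (lp.single 1 j (1 : ℝ) : L1)) i = g j * (lp.single 1 j (1 : ℝ) : L1) i := by
        rw [lp.coeFn_smul]; rfl
      rw [h2, lp.single_apply_ne (E := fun _ : ℕ => ℝ) 1 j (1 : ℝ) hj.symm, mul_zero]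
    · intro h; exact absurd hi h
  have := hli.finite
  exact not_finite ℕ

abbrev c0 : Type := ZeroAtInftyContinuousMap ℕ ℝ

lemma c0_norm_le {f : c0} {C : ℝ} (hC : 0 ≤ C) (h : ∀ k, |f k| ≤ C) : ‖f‖ ≤ C := by
  rw [← ZeroAtInftyContinuousMap.norm_toBCF_eq_norm]
  exact (BoundedContinuousFunction.norm_le hC).2 h

lemma c0_abs_le (f : c0) (k : ℕ) : |f k| ≤ ‖f‖ := by
  rw [← ZeroAtInftyContinuousMap.norm_toBCF_eq_norm]
  exact f.toBCF.norm_coe_le_norm k

/-- The unit vectors of `c₀`. -/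
noncomputable def c0e (n : ℕ) : c0 where
  toFun := fun k => if k = n then 1 else 0
  continuous_toFun := continuous_of_discreteTopology
  zero_at_infty' := by
    rw [Filter.cocompact_eq_cofinite]
    refine tendsto_const_nhds.congr' ?_
    have : ∀ᶠ k : ℕ in cofinite, k ≠ n := (finite_singleton n).compl_mem_cofinite
    filter_upwards [this] with k hk
    rw [if_neg hk]

lemma c0e_apply (n k : ℕ) : c0e n k = if k = n then 1 else 0 := rfl

lemma c0_sum_norm (F : Finset ℕ) (s : ℕ → ℝ) (hs : ∀ n, |s n| ≤ 1) :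
    ‖∑ n ∈ F, s n • c0e n‖ ≤ 1 := by
  refine c0_norm_le zero_le_one fun k => ?_
  have h1 : (∑ n ∈ F, s n • c0e n) k = ∑ n ∈ F, s n * (if k = n then 1 else 0) := by
    induction F using Finset.induction_on with
    | empty => simp
    | insert a F ha ih =>
      rw [Finset.sum_insert ha, Finset.sum_insert ha, ZeroAtInftyContinuousMap.add_apply, ih]
      rfl
  rw [h1]
  simp only [mul_ite, mul_one, mul_zero, Finset.sum_ite_eq]
  split_ifs
  · exact hs k
  · simp

theorem not_iso_c0 : IsEmpty (L1 ≃L[ℝ] c0) := by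
  refine ⟨fun T => ?_⟩
  obtain ⟨C, hC⟩ : ∃ C, C = ‖(T.symm : c0 →L[ℝ] L1)‖ := ⟨_, rfl⟩
  have hC0 : 0 ≤ C := by rw [hC]; exact ContinuousLinearMap.opNorm_nonneg _
  have hTs : ∀ f : c0, ‖T.symm f‖ ≤ C * ‖f‖ := by
    intro f
    rw [hC]
    exact (T.symm : c0 →L[ℝ] L1).le_opNorm f
  obtain ⟨y, hy⟩ : ∃ y : ℕ → L1, y = fun n => T.symm (c0e n) := ⟨_, rfl⟩
  -- uniformly bounded signed sums
  have hsum : ∀ (F : Finset ℕ) (s : ℕ → ℝ), (∀ n, |s n| ≤ 1) → ‖∑ n ∈ F, s n • y n‖ ≤ C := by
    intro F s hs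
    have h1 : ∑ n ∈ F, s n • y n = T.symm (∑ n ∈ F, s n • c0e n) := by
      rw [map_sum, hy]
      simp only [map_smul]
    rw [h1]
    refine (hTs _).trans ?_
    calc C * _ ≤ C * 1 := mul_le_mul_of_nonneg_left (c0_sum_norm F s hs) hC0
      _ = C := mul_one C
  -- lower bound
  obtain ⟨δ, hδ0, hδ⟩ : ∃ δ : ℝ, 0 < δ ∧ ∀ n, δ ≤ ‖y n‖ := by
    obtain ⟨D, hD⟩ : ∃ D, D = ‖(T : L1 →L[ℝ] c0)‖ := ⟨_, rfl⟩
    have hD0 : 0 ≤ D := by rw [hD]; exact ContinuousLinearMap.opNorm_nonneg _
    refine ⟨1 / (D + 1), by positivity, fun n => ?_⟩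
    have h1 : ‖T (y n)‖ ≤ D * ‖y n‖ := by
      rw [hD]
      exact (T : L1 →L[ℝ] c0).le_opNorm (y n)
    have h2 : (1 : ℝ) ≤ ‖T (y n)‖ := by
      rw [hy]
      simp only [ContinuousLinearEquiv.apply_symm_apply]
      have := c0_abs_le (c0e n) n
      rwa [c0e_apply, if_pos rfl, abs_one] at this
    rw [div_le_iff₀ (by linarith)]
    have := norm_nonneg (y n)
    nlinarith
  -- coordinatewise convergence
  have hcoord : ∀ i, Tendsto (fun n => y n i) atTop (𝓝 0) := by
    intro i
    have hs : Summable fun n => |y n i| := by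
      refine summable_of_sum_le (c := C) (fun n => abs_nonneg _) fun F => ?_
      have h1 := hsum F (fun n => SignType.sign (y n i)) (fun n => by
        rcases lt_trichotomy (y n i) 0 with h | h | h <;> simp [h])
      obtain ⟨w, hw⟩ : ∃ w : L1, w = ∑ n ∈ F, ((SignType.sign (y n i) : SignType) : ℝ) • y n :=
        ⟨_, rfl⟩
      rw [← hw] at h1
      have h2 : w i = ∑ n ∈ F, |y n i| := by
        rw [hw, lp.coeFn_sum, Finset.sum_apply]
        apply Finset.sum_congr rfl
        intro n _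
        have : (((SignType.sign (y n i) : SignType) : ℝ) • y n) i =
            ((SignType.sign (y n i) : SignType) : ℝ) * y n i := by rw [lp.coeFn_smul]; rfl
        rw [this, sign_mul_self]
      rw [← h2]
      refine le_trans ?_ h1
      exact (le_abs_self _).trans
        (lp.norm_apply_le_norm (E := fun _ : ℕ => ℝ) (p := 1) one_ne_zero w i)
    have := hs.tendsto_atTop_zero
    exact (tendsto_zero_iff_abs_tendsto_zero _).2 this
  have htr : ∀ m, Tendsto (fun n => ‖L1.trunc m (y n)‖) atTop (𝓝 0) := fun m =>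
    tendsto_trunc_of_coordTendsto (v := y) (fun i => hcoord i) m
  -- gliding hump
  have hump : ∀ m : ℕ, ∃ F : Finset ℕ, m * (δ / 2) ≤ ‖∑ n ∈ F, y n‖ := by
    intro m
    induction m with
    | zero => exact ⟨∅, by simp⟩
    | succ m ih =>
      obtain ⟨F, hF⟩ := ih
      obtain ⟨v, hv⟩ : ∃ v, v = ∑ n ∈ F, y n := ⟨_, rfl⟩
      rw [← hv] at hF
      obtain ⟨M, _, hM⟩ := exists_trunc_small v 0 (e := δ / 16) (by linarith)
      have h1 := (htr M).eventually_lt_const (show (0 : ℝ) < δ / 16 by linarith)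
      have h2 : ∀ᶠ n in atTop, n ∉ F := by
        have : ∀ᶠ n in cofinite, n ∉ F := F.finite_toSet.compl_mem_cofinite
        rwa [Nat.cofinite_eq_atTop] at this
      obtain ⟨n, hn1, hn2⟩ := (h1.and h2).exists
      refine ⟨insert n F, ?_⟩
      rw [Finset.sum_insert hn2, ← hv]
      have h3 := L1.norm_add_ge (v := v) (sub_trunc_mem_Tail M (y n))
      have h4 : ‖v + (y n - L1.trunc M (y n))‖ ≤ ‖y n + v‖ + ‖L1.trunc M (y n)‖ := by
        have : v + (y n - L1.trunc M (y n)) = (y n + v) - L1.trunc M (y n) := by abel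
        rw [this]; exact norm_sub_le _ _
      have h5 : ‖y n‖ ≤ ‖y n - L1.trunc M (y n)‖ + ‖L1.trunc M (y n)‖ := by
        have := norm_add_le (y n - L1.trunc M (y n)) (L1.trunc M (y n))
        rwa [sub_add_cancel] at this
      have h6 := hδ n
      push_cast
      linarith
  obtain ⟨m, hm⟩ := exists_nat_gt (C / (δ / 2))
  obtain ⟨F, hF⟩ := hump m
  have h1 := hsum F (fun _ => 1) (fun _ => by simp)
  simp only [one_smul] at h1
  rw [div_lt_iff₀ (by linarith)] at hm
  linarith

end Pool.Agent.H45.GS
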