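import Mathlib

open Set Filter Topology

namespace Pool.Agent.H45.GS

variable {Z : Type*} [NormedAddCommGroup Z] [NormedSpace ℝ Z]

/-- A continuous convex function has a subgradient at every point. -/
theorem exists_subgradient {W : Z → ℝ} (hW : ConvexOn ℝ univ W) (hc : Continuous W) (z : Z) :
    ∃ f : Z →L[ℝ] ℝ, ∀ w, W z + f (w - z) ≤ W w := by
  have hconv := hW.convex_strict_epigraph
  have hs : {p : Z × ℝ | p.1 ∈ univ ∧ W p.1 < p.2} = {p : Z × ℝ | W p.1 < p.2} := by
    ext p; simp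
  rw [hs] at hconv
  have hopen : IsOpen {p : Z × ℝ | W p.1 < p.2} :=
    isOpen_lt (hc.comp continuous_fst) continuous_snd
  have hnot : (z, W z) ∉ {p : Z × ℝ | W p.1 < p.2} := by simp
  obtain ⟨F, hF⟩ := geometric_hahn_banach_open_point hconv hopen hnot
  have hsplit : ∀ (w : Z) (r : ℝ), F (w, r) = F (w, 0) + r * F (0, 1) := by
    intro w r
    have : (w, r) = (w, 0) + r • ((0, 1) : Z × ℝ) := by simp
    rw [this, map_add, map_smul, smul_eq_mul]
  set c := F (0, 1) with hcdef
  have hcneg : c < 0 := by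
    have := hF (z, W z + 1) (by simp)
    rw [hsplit z (W z + 1), hsplit z (W z)] at this
    linarith
  refine ⟨(-c)⁻¹ • (F.comp (ContinuousLinearMap.inl ℝ Z ℝ)), fun w => ?_⟩
  have h1 : ∀ r, W w < r → F (w, 0) + r * c < F (z, 0) + W z * c := by
    intro r hr
    have := hF (w, r) hr
    rwa [hsplit w r, hsplit z (W z)] at this
  have h2 : F (w, 0) + W w * c ≤ F (z, 0) + W z * c := by
    by_contra hcon
    push Not at hcon
    set e := F (w, 0) + W w * c - (F (z, 0) + W z * c) with he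
    have hepos : 0 < e := by linarith
    have := h1 (W w + e / (-c)) (by
      have : 0 < e / (-c) := div_pos hepos (by linarith)
      linarith)
    have hc' : c ≠ 0 := hcneg.ne
    have h3 : (W w + e / (-c)) * c = W w * c - e := by
      field_simp
      ring
    rw [h3] at this
    linarith
  have h4 : F (w - z, 0) = F (w, 0) - F (z, 0) := by
    rw [← map_sub]; simp
  simp only [smul_apply, ContinuousLinearMap.comp_apply,
    ContinuousLinearMap.inl_apply, smul_eq_mul]
  rw [h4]
  have h5 : (-c)⁻¹ * (F (w, 0) - F (z, 0)) ≤ W w - W z := by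
    rw [inv_mul_le_iff₀ (by linarith)]
    linarith
  linarith

/-- The symmetric second difference of `W` at `z` in the direction `h` is `o(t)`. -/
def SD (W : Z → ℝ) (z h : Z) : Prop :=
  ∀ e : ℝ, 0 < e → ∃ d : ℝ, 0 < d ∧ ∀ t : ℝ, 0 < t → t < d →
    W (z + t • h) + W (z - t • h) - 2 * W z ≤ e * t

theorem hasDerivAt_of_sd {W : Z → ℝ} {z h : Z} {f : Z →L[ℝ] ℝ}
    (hf : ∀ w, W z + f (w - z) ≤ W w) (hsd : SD W z h) :
    HasDerivAt (fun t : ℝ => W (z + t • h)) (f h) 0 := by
  rw [hasDerivAt_iff_isLittleO_nhds_zero, Asymptotics.isLittleO_iff]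
  intro e he
  obtain ⟨d, hd, hd'⟩ := hsd e he
  have hev : ∀ᶠ t : ℝ in 𝓝 0, |t| < d := by
    have : Metric.ball (0 : ℝ) d ∈ 𝓝 (0 : ℝ) := Metric.ball_mem_nhds _ hd
    filter_upwards [this] with t ht
    simpa [Real.dist_eq] using ht
  filter_upwards [hev] with t ht
  have hlow : ∀ s : ℝ, W z + s * f h ≤ W (z + s • h) := by
    intro s
    have := hf (z + s • h)
    simpa using this
  simp only [zero_add, zero_smul, add_zero, smul_eq_mul]
  rw [Real.norm_eq_abs, Real.norm_eq_abs]
  have h1 := hlow t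
  have h2 := hlow (-t)
  rcases lt_trichotomy t 0 with ht0 | ht0 | ht0
  · have h3 := hd' (-t) (by linarith) (by rwa [abs_of_neg ht0] at ht)
    have h4 : z - (-t) • h = z + t • h := by simp
    rw [h4] at h3
    rw [abs_of_nonneg (by linarith), abs_of_neg ht0]
    linarith
  · rw [ht0]; simp
  · have h3 := hd' t ht0 (by rwa [abs_of_pos ht0] at ht)
    have h4 : z - t • h = z + (-t) • h := by simp [sub_eq_add_neg]
    rw [h4] at h3
    rw [abs_of_nonneg (by linarith), abs_of_pos ht0]
    linarith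

/-- The defining properties of an equivalent Gateaux differentiable norm (as in the frozen
statement). -/
def IsGNorm (N : Z → ℝ) : Prop :=
  (∀ x y, N (x + y) ≤ N x + N y) ∧
  (∀ (c : ℝ) (x : Z), N (c • x) = |c| * N x) ∧
  (∃ a b : ℝ, 0 < a ∧ ∀ x, a * ‖x‖ ≤ N x ∧ N x ≤ b * ‖x‖) ∧
  (∀ x : Z, x ≠ 0 → ∃ f : Z →L[ℝ] ℝ,
    ∀ h : Z, HasDerivAt (fun t : ℝ => N (x + t • h)) (f h) 0)

/-- Passing from a convex function to the gauge of its unit sublevel set. -/
theorem gauge_gnorm {H : Z → ℝ} (hconv : ConvexOn ℝ univ H) (hcont : Continuous H)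
    (heven : ∀ z, H (-z) = H z) (h0 : H 0 = 0) (hcoer : ∃ R : ℝ, ∀ z, H z ≤ 1 → ‖z‖ ≤ R)
    (hsd : ∀ z, H z = 1 → ∀ h, SD H z h) :
    ∃ M : Z → ℝ, IsGNorm M ∧ ∀ z, M z ≤ 1 ↔ H z ≤ 1 := by
  set s : Set Z := {z | H z ≤ 1} with hs
  have hsconv : Convex ℝ s := by
    have := hconv.convex_le 1
    simpa [hs] using this
  have hsclosed : IsClosed s := isClosed_le hcont continuous_const
  have hs0 : s ∈ 𝓝 (0 : Z) := by
    have : {z : Z | H z < 1} ∈ 𝓝 (0 : Z) :=
      (isOpen_lt hcont continuous_const).mem_nhds (by simp [h0])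
    refine mem_of_superset this fun z hz => ?_
    have h1 : H z < 1 := hz
    change H z ≤ 1
    exact h1.le
  have hsneg : ∀ z ∈ s, -z ∈ s := fun z hz => by
    change H (-z) ≤ 1
    rw [heven]; exact hz
  have habs : Absorbent ℝ s := absorbent_nhds_zero hs0
  set M : Z → ℝ := gauge s with hM
  have hMle : ∀ z, M z ≤ 1 ↔ H z ≤ 1 := by
    intro z
    rw [hM, gauge_le_one_iff_mem_closure hsconv hs0, hsclosed.closure_eq]
    rfl
  have hMnonneg : ∀ z, 0 ≤ M z := gauge_nonneg
  have hMadd : ∀ x y, M (x + y) ≤ M x + M y := gauge_add_le hsconv habs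
  have hMsmul : ∀ (c : ℝ) (x : Z), M (c • x) = |c| * M x := by
    intro c x
    rcases le_total 0 c with hc | hc
    · rw [abs_of_nonneg hc, hM, gauge_smul_of_nonneg hc, smul_eq_mul]
    · have : c • x = -((-c) • x) := by simp
      rw [this, hM, gauge_neg hsneg, gauge_smul_of_nonneg (by linarith), smul_eq_mul,
        abs_of_nonpos hc]
  have hMcont : Continuous M := continuous_gauge hsconv hs0
  have hMconv : ConvexOn ℝ univ M := by
    refine ⟨convex_univ, ?_⟩
    intro x _ y _ p q hp hq _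
    calc M (p • x + q • y) ≤ M (p • x) + M (q • y) := hMadd _ _
      _ = p • M x + q • M y := by
        rw [hMsmul, hMsmul, abs_of_nonneg hp, abs_of_nonneg hq, smul_eq_mul, smul_eq_mul]
  -- equivalence with the norm
  obtain ⟨R, hR⟩ := hcoer
  have hR0 : 0 ≤ R := by
    have := hR 0 (by rw [h0]; norm_num)
    simpa using this
  have hlow : ∀ z, 1 / (R + 1) * ‖z‖ ≤ M z := by
    intro z
    rw [div_mul_eq_mul_div, one_mul, div_le_iff₀ (by linarith)]
    by_contra hcon
    push Not at hcon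
    -- scale `z` so that `M ≤ 1` and the norm is larger than `R`
    have hznorm : 0 < ‖z‖ := lt_of_le_of_lt (mul_nonneg (hMnonneg z) (by linarith)) hcon
    have h1 : M (((R + 1) / ‖z‖) • z) ≤ 1 := by
      rw [hMsmul, abs_of_pos (div_pos (by linarith) hznorm), div_mul_eq_mul_div,
        div_le_one hznorm]
      linarith
    have h2 := hR _ ((hMle _).1 h1)
    rw [norm_smul, Real.norm_eq_abs, abs_of_pos (div_pos (by linarith) hznorm),
      div_mul_cancel₀ _ hznorm.ne'] at h2
    linarith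
  obtain ⟨r, hr, hball⟩ := Metric.mem_nhds_iff.1 hs0
  have hup : ∀ z, M z ≤ 2 / r * ‖z‖ := by
    intro z
    rcases eq_or_ne z 0 with rfl | hz
    · rw [hM, gauge_zero]; simp
    have hznorm : 0 < ‖z‖ := norm_pos_iff.2 hz
    have h1 : (r / 2 / ‖z‖) • z ∈ s := by
      apply hball
      rw [mem_ball_zero_iff, norm_smul, Real.norm_eq_abs,
        abs_of_pos (div_pos (by linarith) hznorm), div_mul_cancel₀ _ hznorm.ne']
      linarith
    have h2 : M ((r / 2 / ‖z‖) • z) ≤ 1 := (hMle _).2 h1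
    rw [hMsmul, abs_of_pos (div_pos (by linarith) hznorm)] at h2
    have h3 : r / 2 / ‖z‖ * M z * (2 / r * ‖z‖) = M z := by field_simp
    have h4 : 0 ≤ 2 / r * ‖z‖ := by positivity
    calc M z = r / 2 / ‖z‖ * M z * (2 / r * ‖z‖) := h3.symm
      _ ≤ 1 * (2 / r * ‖z‖) := mul_le_mul_of_nonneg_right h2 h4
      _ = 2 / r * ‖z‖ := one_mul _
  -- comparison of `M` and `H`
  have hMH : ∀ w, 1 ≤ M w → M w ≤ H w := by
    intro w hw
    set c := M w with hc
    have hc0 : 0 < c := by linarith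
    have h1 : M (c⁻¹ • w) = 1 := by
      rw [hMsmul, abs_of_pos (inv_pos.2 hc0), ← hc, inv_mul_cancel₀ hc0.ne']
    have h2 : 1 ≤ H (c⁻¹ • w) := by
      by_contra hcon
      push Not at hcon
      have hint : c⁻¹ • w ∈ interior s := by
        refine mem_interior.2 ⟨{z | H z < 1}, fun z hz => ?_,
          isOpen_lt hcont continuous_const, hcon⟩
        have h1 : H z < 1 := hz
        change H z ≤ 1
        exact h1.le
      have := (gauge_lt_one_iff_mem_interior hsconv hs0).2 hint
      rw [← hM, h1] at this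
      exact lt_irrefl _ this
    have h3 := hconv.2 (mem_univ w) (mem_univ (0 : Z)) (inv_pos.2 hc0).le
      (sub_nonneg.2 (inv_le_one_of_one_le₀ hw)) (by ring : c⁻¹ + (1 - c⁻¹) = 1)
    rw [smul_zero, add_zero, h0, smul_zero, add_zero, smul_eq_mul] at h3
    have h4 : 1 ≤ c⁻¹ * H w := h2.trans h3
    rw [inv_mul_eq_div, le_div_iff₀ hc0] at h4
    linarith
  refine ⟨M, ⟨hMadd, hMsmul, ⟨1 / (R + 1), 2 / r, by positivity, fun z => ⟨hlow z, hup z⟩⟩, ?_⟩,
    hMle⟩
  -- Gateaux differentiability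
  intro z hz
  have hc0 : 0 < M z := by
    have := hlow z
    have h2 : 0 < 1 / (R + 1) * ‖z‖ := mul_pos (by positivity) (norm_pos_iff.2 hz)
    linarith
  obtain ⟨c, hc⟩ : ∃ c, c = M z := ⟨_, rfl⟩
  rw [← hc] at hc0
  obtain ⟨z', hz'⟩ : ∃ z' : Z, z' = c⁻¹ • z := ⟨_, rfl⟩
  have hMz' : M z' = 1 := by
    rw [hz', hMsmul, abs_of_pos (inv_pos.2 hc0), ← hc, inv_mul_cancel₀ hc0.ne']
  have hHz' : H z' = 1 := by
    apply le_antisymm ((hMle z').1 hMz'.le)
    rw [← hMz']; exact hMH z' hMz'.ge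
  obtain ⟨f, hf⟩ := exists_subgradient hMconv hMcont z'
  have hfz' : f z' = 1 := by
    have h1 := hf 0
    have h2 := hf (2 • z')
    have e1 : M (2 • z') = 2 := by
      have : (2 : ℕ) • z' = (2 : ℝ) • z' := by rw [two_smul, two_smul]
      rw [this, hMsmul, hMz']; norm_num
    have e2 : M 0 = 0 := gauge_zero
    rw [e2, zero_sub, map_neg, hMz'] at h1
    rw [e1, hMz', two_smul, add_sub_cancel_right] at h2
    linarith
  have hfle : ∀ w, f w ≤ M w := by
    intro w
    have := hf w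
    rw [hMz', map_sub, hfz'] at this
    linarith
  refine ⟨f, fun h => ?_⟩
  obtain ⟨c0, hc0def⟩ : ∃ c0, c0 = f h := ⟨_, rfl⟩
  rw [← hc0def]
  obtain ⟨h', hh'⟩ : ∃ h' : Z, h' = h - c0 • z' := ⟨_, rfl⟩
  have hfh' : f h' = 0 := by
    rw [hh', map_sub, map_smul, hfz', smul_eq_mul, mul_one, hc0def, sub_self]
  have hge : ∀ t : ℝ, 1 ≤ M (z' + t • h') := by
    intro t
    have := hfle (z' + t • h')
    rwa [map_add, map_smul, hfh', smul_zero, add_zero, hfz'] at this
  -- the derivative of `M` at `z'` in the direction `h`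
  have hderiv : HasDerivAt (fun t : ℝ => M (z' + t • h)) c0 0 := by
    rw [hasDerivAt_iff_isLittleO_nhds_zero, Asymptotics.isLittleO_iff]
    intro e he
    obtain ⟨d, hd, hd'⟩ := hsd z' hHz' h' e he
    have hsmall : ∀ t : ℝ, |t| < d → M (z' + t • h') - 1 ≤ e * |t| := by
      intro t ht
      have hb := hge t
      have hb' := hge (-t)
      rcases lt_trichotomy t 0 with h1 | h1 | h1
      · have h3 := hd' (-t) (by linarith) (by rwa [abs_of_neg h1] at ht)
        have e1 : z' - (-t) • h' = z' + t • h' := by simp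
        rw [e1, hHz'] at h3
        have h4 := hMH _ hb
        have h5 := hMH _ hb'
        rw [abs_of_neg h1]
        linarith
      · rw [h1]; simp [hMz']
      · have h3 := hd' t h1 (by rwa [abs_of_pos h1] at ht)
        have e1 : z' - t • h' = z' + (-t) • h' := by simp [sub_eq_add_neg]
        rw [e1, hHz'] at h3
        have h4 := hMH _ hb
        have h5 := hMH _ hb'
        rw [abs_of_pos h1]
        linarith
    -- small `t`
    have hd2 : 0 < min (d / 2) (1 / (2 * (|c0| + 1))) :=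
      lt_min (by linarith) (by positivity)
    filter_upwards [Metric.ball_mem_nhds (0 : ℝ) hd2] with t ht
    rw [Metric.mem_ball, Real.dist_eq, sub_zero] at ht
    have ht1 : |t| < d / 2 := lt_of_lt_of_le ht (min_le_left _ _)
    have ht2 : |t| < 1 / (2 * (|c0| + 1)) := lt_of_lt_of_le ht (min_le_right _ _)
    have hct : |c0 * t| < 1 / 2 := by
      rw [abs_mul]
      have h1 : |t| * (2 * (|c0| + 1)) < 1 := by rwa [lt_div_iff₀ (by positivity)] at ht2
      have h2 : 0 ≤ |t| := abs_nonneg t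
      nlinarith [abs_nonneg c0]
    have hpos : 1 / 2 < 1 + c0 * t := by
      have := (abs_lt.1 hct).1
      linarith
    obtain ⟨τ, hτ⟩ : ∃ τ, τ = t / (1 + c0 * t) := ⟨_, rfl⟩
    have hfac : z' + t • h = (1 + c0 * t) • (z' + τ • h') := by
      have h1 : (1 + c0 * t) * τ = t := by
        rw [hτ]; field_simp
      rw [smul_add, smul_smul, h1, hh', smul_sub, smul_smul, add_smul, one_smul]
      rw [mul_comm c0 t]
      abel
    have hτabs : (1 + c0 * t) * |τ| = |t| := by
      rw [hτ, abs_div, abs_of_pos (by linarith : (0 : ℝ) < 1 + c0 * t)]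
      field_simp
    have hτd : |τ| < d := by
      have h1 : |τ| * (1 / 2) ≤ |t| := by
        rw [← hτabs]
        nlinarith [abs_nonneg τ]
      linarith
    have h1 := hsmall τ hτd
    have h2 := hge τ
    simp only [zero_add, zero_smul, add_zero, smul_eq_mul]
    rw [hfac, hMsmul, abs_of_pos (by linarith : (0 : ℝ) < 1 + c0 * t), hMz',
      Real.norm_eq_abs, Real.norm_eq_abs]
    have h3 : (1 + c0 * t) * M (z' + τ • h') - 1 - t * c0 =
        (1 + c0 * t) * (M (z' + τ • h') - 1) := by ring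
    rw [h3, abs_of_nonneg (mul_nonneg (by linarith) (by linarith))]
    calc (1 + c0 * t) * (M (z' + τ • h') - 1) ≤ (1 + c0 * t) * (e * |τ|) :=
          mul_le_mul_of_nonneg_left h1 (by linarith)
      _ = e * ((1 + c0 * t) * |τ|) := by ring
      _ = e * |t| := by rw [hτabs]
  -- transfer to `z`
  have hfun : (fun t : ℝ => M (z + t • h)) = fun t : ℝ => c * M (z' + (c⁻¹ * t) • h) := by
    funext t
    have h1 : z + t • h = c • (z' + (c⁻¹ * t) • h) := by
      rw [smul_add, hz', smul_smul, smul_smul, mul_inv_cancel₀ hc0.ne', one_smul,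
        ← mul_assoc, mul_inv_cancel₀ hc0.ne', one_mul]
    rw [h1, hMsmul, abs_of_pos hc0]
  rw [hfun]
  have hinner : HasDerivAt (fun t : ℝ => c⁻¹ * t) c⁻¹ 0 := by
    simpa using (hasDerivAt_id (0 : ℝ)).const_mul c⁻¹
  have hcomp : HasDerivAt (fun t : ℝ => M (z' + (c⁻¹ * t) • h)) (c0 * c⁻¹) 0 := by
    have h2 : HasDerivAt (fun t : ℝ => M (z' + t • h)) c0 ((fun t : ℝ => c⁻¹ * t) 0) := by
      simpa using hderiv
    exact h2.comp (0 : ℝ) hinner
  have hfin := hcomp.const_mul c
  have : c * (c0 * c⁻¹) = c0 := by field_simp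
  rwa [this] at hfin

end Pool.Agent.H45.GS
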