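import Mathlib
import Pool.Agent.H45.GS.Convex
import Pool.Agent.H45.GS.Rho

open Set Filter Topology
open scoped ENNReal

namespace Pool.Agent.H45.GS

/-- The marginal (infimal projection) of a jointly convex function is convex. -/
lemma marginal_convex {E Z : Type*} [AddCommGroup E] [Module ℝ E] [AddCommGroup Z] [Module ℝ Z]
    {F : E → Z → ℝ} (hb : ∀ z, BddBelow (range fun e => F e z))
    (hF : ∀ (e e' : E) (z z' : Z) (p q : ℝ), 0 ≤ p → 0 ≤ q → p + q = 1 →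
      F (p • e + q • e') (p • z + q • z') ≤ p * F e z + q * F e' z') :
    ConvexOn ℝ univ (fun z => ⨅ e, F e z) := by
  have : Nonempty E := ⟨0⟩
  refine ⟨convex_univ, ?_⟩
  intro z _ z' _ p q hp hq hpq
  simp only [smul_eq_mul]
  refine le_of_forall_pos_le_add fun ε hε => ?_
  obtain ⟨e, he⟩ := exists_lt_of_ciInf_lt (show (⨅ e, F e z) < (⨅ e, F e z) + ε by linarith)
  obtain ⟨e', he'⟩ := exists_lt_of_ciInf_lt (show (⨅ e, F e z') < (⨅ e, F e z') + ε by linarith)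
  have h1 : (⨅ e, F e (p • z + q • z')) ≤ F (p • e + q • e') (p • z + q • z') := ciInf_le (hb _) _
  have h2 := hF e e' z z' p q hp hq hpq
  have h3 : p * F e z ≤ p * ((⨅ e, F e z) + ε) := mul_le_mul_of_nonneg_left he.le hp
  have h4 : q * F e' z' ≤ q * ((⨅ e, F e z') + ε) := mul_le_mul_of_nonneg_left he'.le hq
  have h5 : p * ε + q * ε = ε := by rw [← add_mul, hpq, one_mul]
  nlinarith

lemma half_sq_convex (u v : L2) {p q : ℝ} (hp : 0 ≤ p) (hq : 0 ≤ q) (hpq : p + q = 1) :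
    ‖p • u + q • v‖ ^ 2 / 2 ≤ p * (‖u‖ ^ 2 / 2) + q * (‖v‖ ^ 2 / 2) := by
  have h1 : ‖p • u + q • v‖ ≤ p * ‖u‖ + q * ‖v‖ := by
    refine (norm_add_le _ _).trans ?_
    rw [norm_smul, norm_smul, Real.norm_of_nonneg hp, Real.norm_of_nonneg hq]
  have h2 : ‖p • u + q • v‖ ^ 2 ≤ (p * ‖u‖ + q * ‖v‖) ^ 2 :=
    pow_le_pow_left₀ (norm_nonneg _) h1 2
  have h3 : q = 1 - p := by linarith
  subst h3
  nlinarith [mul_nonneg (mul_nonneg hp hq) (sq_nonneg (‖u‖ - ‖v‖))]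

section

variable {Z : Type*} [NormedAddCommGroup Z] [NormedSpace ℝ Z] (ι : L1 →ₗᵢ[ℝ] Z) (S : L2 →L[ℝ] Z)

/-- The function under the infimum. -/
noncomputable def Fn (b : ℝ) (k : L1 →L[ℝ] ℝ) (e : L1 × L2) (y : Z) : ℝ :=
  4 * b * rho ι (y + ι e.1 - S e.2) - k e.1 + ‖e.2‖ ^ 2 / 2

/-- The basic variational function. -/
noncomputable def Wf (b : ℝ) (k : L1 →L[ℝ] ℝ) (y : Z) : ℝ := ⨅ e, Fn ι S b k e y

variable {ι S} {b : ℝ}

lemma Fn_lower (hb : 0 ≤ b) (hS : ∀ u, ‖S u‖ ≤ ‖u‖) {k : L1 →L[ℝ] ℝ} (hk : ∀ x, |k x| ≤ b * ‖x‖)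
    (e : L1 × L2) (y : Z) :
    b * ‖e.1‖ - 4 * b * ‖y‖ - 4 * b * ‖e.2‖ + ‖e.2‖ ^ 2 / 2 ≤ Fn ι S b k e y := by
  have h1 := le_rho_iota ι e.1
  have h2 := rho_sub_le ι (ι e.1) (y + ι e.1 - S e.2)
  have h3 : ι e.1 - (y + ι e.1 - S e.2) = S e.2 - y := by abel
  rw [h3] at h2
  have h4 : ‖S e.2 - y‖ ≤ ‖e.2‖ + ‖y‖ := (norm_sub_le _ _).trans (add_le_add_left (hS _) _)
  have h5 := (abs_le.1 (hk e.1)).2
  have h6 : 4 * b * (‖e.1‖ / 2 - ‖e.2‖ - ‖y‖) ≤ 4 * b * rho ι (y + ι e.1 - S e.2) :=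
    mul_le_mul_of_nonneg_left (by linarith) (by linarith)
  unfold Fn
  nlinarith

lemma Fn_bdd (hb : 0 ≤ b) (hS : ∀ u, ‖S u‖ ≤ ‖u‖) {k : L1 →L[ℝ] ℝ} (hk : ∀ x, |k x| ≤ b * ‖x‖)
    (y : Z) : BddBelow (range fun e => Fn ι S b k e y) := by
  refine ⟨- 4 * b * ‖y‖ - 8 * b ^ 2, ?_⟩
  rintro _ ⟨e, rfl⟩
  have h1 := Fn_lower (ι := ι) hb hS hk e y
  have h2 := mul_nonneg hb (norm_nonneg e.1)
  simp only
  nlinarith [sq_nonneg (‖e.2‖ - 4 * b)]

lemma Fn_smul_convex (hb : 0 ≤ b) {k : L1 →L[ℝ] ℝ} (e e' : L1 × L2) (y y' : Z) (p q : ℝ)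
    (hp : 0 ≤ p) (hq : 0 ≤ q) (hpq : p + q = 1) :
    Fn ι S b k (p • e + q • e') (p • y + q • y') ≤ p * Fn ι S b k e y + q * Fn ι S b k e' y' := by
  unfold Fn
  have h1 : (p • y + q • y') + ι (p • e + q • e').1 - S (p • e + q • e').2 =
      p • (y + ι e.1 - S e.2) + q • (y' + ι e'.1 - S e'.2) := by
    simp only [Prod.fst_add, Prod.snd_add, Prod.smul_fst, Prod.smul_snd, map_add, map_smul]
    module
  rw [h1]
  have h2 := (rho_convex ι).2 (mem_univ (y + ι e.1 - S e.2)) (mem_univ (y' + ι e'.1 - S e'.2))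
    hp hq hpq
  have h3 : k (p • e + q • e').1 = p * k e.1 + q * k e'.1 := by
    simp only [Prod.fst_add, Prod.smul_fst, map_add, map_smul, smul_eq_mul]
  have h4 := half_sq_convex e.2 e'.2 hp hq hpq
  have h5 : (p • e + q • e').2 = p • e.2 + q • e'.2 := by
    simp only [Prod.snd_add, Prod.smul_snd]
  rw [h3, h5]
  simp only [smul_eq_mul] at h2
  have h6 := mul_le_mul_of_nonneg_left h2 (show 0 ≤ 4 * b by linarith)
  linarith

lemma Wf_convex (hb : 0 ≤ b) (hS : ∀ u, ‖S u‖ ≤ ‖u‖) {k : L1 →L[ℝ] ℝ}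
    (hk : ∀ x, |k x| ≤ b * ‖x‖) : ConvexOn ℝ univ (Wf ι S b k) :=
  marginal_convex (Fn_bdd hb hS hk) (Fn_smul_convex hb)

lemma Wf_le (hb : 0 ≤ b) (hS : ∀ u, ‖S u‖ ≤ ‖u‖) {k : L1 →L[ℝ] ℝ} (hk : ∀ x, |k x| ≤ b * ‖x‖)
    (e : L1 × L2) (y : Z) : Wf ι S b k y ≤ Fn ι S b k e y := ciInf_le (Fn_bdd hb hS hk y) e

lemma exists_Fn_lt (b : ℝ) (k : L1 →L[ℝ] ℝ) (y : Z) {ε : ℝ} (hε : 0 < ε) :
    ∃ e, Fn ι S b k e y < Wf ι S b k y + ε :=
  exists_lt_of_ciInf_lt (show Wf ι S b k y < Wf ι S b k y + ε by linarith)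

/-- `Wf` is `4b`-Lipschitz. -/
lemma Wf_lip (hb : 0 ≤ b) (hS : ∀ u, ‖S u‖ ≤ ‖u‖) {k : L1 →L[ℝ] ℝ}
    (hk : ∀ x, |k x| ≤ b * ‖x‖) (y y' : Z) :
    Wf ι S b k y - Wf ι S b k y' ≤ 4 * b * ‖y - y'‖ := by
  rw [sub_le_iff_le_add']
  refine le_of_forall_pos_le_add fun ε hε => ?_
  obtain ⟨e, he⟩ := exists_Fn_lt (ι := ι) (S := S) b k y' hε
  have h1 := Wf_le (ι := ι) hb hS hk e y
  unfold Fn at h1 he
  have h2 := rho_sub_le ι (y + ι e.1 - S e.2) (y' + ι e.1 - S e.2)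
  have h3 : y + ι e.1 - S e.2 - (y' + ι e.1 - S e.2) = y - y' := by abel
  rw [h3] at h2
  have h4 := mul_le_mul_of_nonneg_left h2 (show 0 ≤ 4 * b by linarith)
  linarith

/-- Translation property. -/
lemma Wf_trans_le (hb : 0 ≤ b) (hS : ∀ u, ‖S u‖ ≤ ‖u‖) {k : L1 →L[ℝ] ℝ}
    (hk : ∀ x, |k x| ≤ b * ‖x‖) (x : L1) (y : Z) :
    Wf ι S b k (ι x + y) ≤ Wf ι S b k y + k x := by
  refine le_of_forall_pos_le_add fun ε hε => ?_
  obtain ⟨e, he⟩ := exists_Fn_lt (ι := ι) (S := S) b k y hε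
  have h1 := Wf_le (ι := ι) hb hS hk (e.1 - x, e.2) (ι x + y)
  unfold Fn at h1 he
  simp only [map_sub] at h1
  have h2 : ι x + y + (ι e.1 - ι x) - S e.2 = y + ι e.1 - S e.2 := by abel
  rw [h2] at h1
  linarith

lemma Wf_trans (hb : 0 ≤ b) (hS : ∀ u, ‖S u‖ ≤ ‖u‖) {k : L1 →L[ℝ] ℝ}
    (hk : ∀ x, |k x| ≤ b * ‖x‖) (x : L1) (y : Z) :
    Wf ι S b k (ι x + y) = Wf ι S b k y + k x := by
  apply le_antisymm (Wf_trans_le hb hS hk x y)
  have h := Wf_trans_le (ι := ι) hb hS hk (-x) (ι x + y)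
  rw [map_neg, map_neg, neg_add_cancel_left] at h
  linarith

/-- Symmetry property. -/
lemma Wf_neg_le (hb : 0 ≤ b) (hS : ∀ u, ‖S u‖ ≤ ‖u‖) {k : L1 →L[ℝ] ℝ}
    (hk : ∀ x, |k x| ≤ b * ‖x‖) (y : Z) :
    Wf ι S b (-k) (-y) ≤ Wf ι S b k y := by
  refine le_of_forall_pos_le_add fun ε hε => ?_
  obtain ⟨e, he⟩ := exists_Fn_lt (ι := ι) (S := S) b k y hε
  have hk' : ∀ x, |(-k) x| ≤ b * ‖x‖ := by
    intro x
    simpa using hk x
  have h1 := Wf_le (ι := ι) hb hS hk' (-e.1, -e.2) (-y)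
  unfold Fn at h1 he
  simp only [map_neg, norm_neg, neg_apply, neg_neg] at h1
  have h2 : -y + -ι e.1 - -S e.2 = -(y + ι e.1 - S e.2) := by abel
  rw [h2, rho_neg] at h1
  linarith

lemma Wf_neg (hb : 0 ≤ b) (hS : ∀ u, ‖S u‖ ≤ ‖u‖) {k : L1 →L[ℝ] ℝ}
    (hk : ∀ x, |k x| ≤ b * ‖x‖) (y : Z) :
    Wf ι S b (-k) (-y) = Wf ι S b k y := by
  apply le_antisymm (Wf_neg_le hb hS hk y)
  have hk' : ∀ x, |(-k) x| ≤ b * ‖x‖ := by
    intro x
    simpa using hk x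
  have h := Wf_neg_le (ι := ι) hb hS hk' (-y)
  rwa [neg_neg, neg_neg] at h

/-- Second differences in the directions `S v`. -/
lemma Wf_second (hb : 0 ≤ b) (hS : ∀ u, ‖S u‖ ≤ ‖u‖) {k : L1 →L[ℝ] ℝ}
    (hk : ∀ x, |k x| ≤ b * ‖x‖) (y : Z) (v : L2) (t : ℝ) :
    Wf ι S b k (y + t • S v) + Wf ι S b k (y - t • S v) - 2 * Wf ι S b k y ≤ t ^ 2 * ‖v‖ ^ 2 := by
  rw [sub_le_iff_le_add']
  refine le_of_forall_pos_le_add fun ε hε => ?_
  obtain ⟨e, he⟩ := exists_Fn_lt (ι := ι) (S := S) b k y (half_pos hε)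
  have h1 := Wf_le (ι := ι) hb hS hk (e.1, e.2 + t • v) (y + t • S v)
  have h2 := Wf_le (ι := ι) hb hS hk (e.1, e.2 - t • v) (y - t • S v)
  unfold Fn at h1 h2 he
  simp only [map_add, map_sub, map_smul] at h1 h2
  have h3 : y + t • S v + ι e.1 - (S e.2 + t • S v) = y + ι e.1 - S e.2 := by abel
  have h4 : y - t • S v + ι e.1 - (S e.2 - t • S v) = y + ι e.1 - S e.2 := by abel
  rw [h3] at h1
  rw [h4] at h2
  have h5 := parallelogram_law_with_norm ℝ e.2 (t • v)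
  have h6 : ‖t • v‖ ^ 2 = t ^ 2 * ‖v‖ ^ 2 := by
    rw [norm_smul, Real.norm_eq_abs, mul_pow, sq_abs]
  rw [h6] at h5
  nlinarith

end

/-- Second differences in a dense set of directions plus a Lipschitz bound give `SD`. -/
lemma sd_of_dense {Z : Type*} [NormedAddCommGroup Z] [NormedSpace ℝ Z] {W : Z → ℝ} {z : Z}
    {S : L2 →L[ℝ] Z} (hS : DenseRange S) {L r : ℝ} (hr : 0 < r)
    (hL : ∀ w w', ‖w - z‖ < r → ‖w' - z‖ < r → W w - W w' ≤ L * ‖w - w'‖)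
    (hsec : ∀ v : L2, ∃ C d : ℝ, 0 < d ∧ ∀ t : ℝ, 0 < t → t < d →
      W (z + t • S v) + W (z - t • S v) - 2 * W z ≤ C * t ^ 2) (h : Z) : SD W z h := by
  intro e he
  obtain ⟨L', hL'⟩ : ∃ L', L' = |L| + 1 := ⟨_, rfl⟩
  have hL'0 : 0 < L' := by rw [hL']; positivity
  obtain ⟨v, hv⟩ : ∃ v, ‖h - S v‖ < e / (4 * L') := by
    obtain ⟨_, ⟨v, rfl⟩, hv⟩ := Metric.mem_closure_iff.1 (hS h) (e / (4 * L')) (by positivity)
    exact ⟨v, by rwa [dist_eq_norm] at hv⟩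
  obtain ⟨C, d, hd, hC⟩ := hsec v
  obtain ⟨C', hC'⟩ : ∃ C', C' = |C| + 1 := ⟨_, rfl⟩
  have hC'0 : 0 < C' := by rw [hC']; positivity
  refine ⟨min (min d (e / (2 * C'))) (min (r / (‖h‖ + 1)) (r / (‖S v‖ + 1))), ?_, ?_⟩
  · refine lt_min (lt_min hd (by positivity)) (lt_min ?_ ?_)
    · positivity
    · positivity
  · intro t ht htd
    have ht1 : t < d := lt_of_lt_of_le htd ((min_le_left _ _).trans (min_le_left _ _))
    have ht2 : t < e / (2 * C') := lt_of_lt_of_le htd ((min_le_left _ _).trans (min_le_right _ _))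
    have ht3 : t < r / (‖h‖ + 1) := lt_of_lt_of_le htd ((min_le_right _ _).trans (min_le_left _ _))
    have ht4 : t < r / (‖S v‖ + 1) :=
      lt_of_lt_of_le htd ((min_le_right _ _).trans (min_le_right _ _))
    have hn : ∀ w : Z, t < r / (‖w‖ + 1) → ‖t • w‖ < r := by
      intro w hw
      rw [lt_div_iff₀ (by positivity)] at hw
      rw [norm_smul, Real.norm_of_nonneg ht.le]
      nlinarith
    have n1 := hn h ht3
    have n2 := hn (S v) ht4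
    have h1 := hC t ht ht1
    have h2 := hL (z + t • h) (z + t • S v) (by simpa using n1) (by simpa using n2)
    have h3 := hL (z - t • h) (z - t • S v) (by simpa using n1) (by simpa using n2)
    have e1 : z + t • h - (z + t • S v) = t • (h - S v) := by rw [smul_sub]; abel
    have e2 : z - t • h - (z - t • S v) = -(t • (h - S v)) := by rw [smul_sub]; abel
    rw [e1, norm_smul, Real.norm_of_nonneg ht.le] at h2
    rw [e2, norm_neg, norm_smul, Real.norm_of_nonneg ht.le] at h3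
    have h4 : L * (t * ‖h - S v‖) ≤ e / 4 * t := by
      have h5 : L * (t * ‖h - S v‖) ≤ L' * (t * ‖h - S v‖) := by
        apply mul_le_mul_of_nonneg_right _ (by positivity)
        rw [hL']
        have := le_abs_self L
        linarith
      have h6 : L' * (t * ‖h - S v‖) ≤ L' * (t * (e / (4 * L'))) := by
        apply mul_le_mul_of_nonneg_left _ hL'0.le
        exact mul_le_mul_of_nonneg_left hv.le ht.le
      have h7 : L' * (t * (e / (4 * L'))) = e / 4 * t := by field_simp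
      linarith
    have h8 : C * t ^ 2 ≤ e / 2 * t := by
      have h9 : C * t ^ 2 ≤ C' * t ^ 2 := by
        apply mul_le_mul_of_nonneg_right _ (by positivity)
        rw [hC']
        have := le_abs_self C
        linarith
      have h10 : C' * t ^ 2 ≤ e / 2 * t := by
        have : C' * t ≤ e / 2 := by
          rw [lt_div_iff₀ (by positivity)] at ht2
          linarith
        nlinarith
      linarith
    linarith

end Pool.Agent.H45.GS
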