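import Mathlib
import Pool.Agent.H45.GS.Sel

open Set Filter Topology
open scoped ENNReal

namespace Pool.Agent.H45.GS

lemma eventually_sq_ge {u : ℕ → L2} {v : L2} (h : CoordTendsto u v) {e : ℝ} (he : 0 < e) :
    ∀ᶠ j in atTop, ‖v‖ ^ 2 - e ≤ ‖u j‖ ^ 2 := by
  by_contra hcon
  rw [not_eventually] at hcon
  have h1 : ∃ᶠ j in atTop, ‖u j‖ ≤ Real.sqrt (‖v‖ ^ 2 - e) := by
    refine hcon.mono fun j hj => ?_
    push Not at hj
    exact Real.le_sqrt_of_sq_le hj.le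
  have h2 := norm_le_of_coordTendsto h h1
  have h3 : 0 < ‖v‖ ^ 2 - e := by
    by_contra hneg
    push Not at hneg
    obtain ⟨j, hj⟩ := hcon.exists
    push Not at hj
    have := sq_nonneg ‖u j‖
    linarith
  have h4 := Real.sq_sqrt h3.le
  have h5 : ‖v‖ ^ 2 ≤ (Real.sqrt (‖v‖ ^ 2 - e)) ^ 2 := pow_le_pow_left₀ (norm_nonneg _) h2 2
  linarith

section

variable {Z : Type*} [NormedAddCommGroup Z] [NormedSpace ℝ Z] {ι : L1 →ₗᵢ[ℝ] Z} {S : L2 →L[ℝ] Z}
  {b : ℝ}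

/-- Sequential continuity of `k ↦ Wf k y`. -/
lemma Wf_tendsto (hb : 0 < b) (hS : ∀ u, ‖S u‖ ≤ ‖u‖)
    (hSc : ∀ (u : ℕ → L2) (v : L2) (R : ℝ), CoordTendsto u v → (∀ j, ‖u j‖ ≤ R) →
        Tendsto (fun j => S (u j)) atTop (𝓝 (S v)))
    {k : ℕ → L1 →L[ℝ] ℝ} {k0 : L1 →L[ℝ] ℝ} (hk : ∀ j x, |k j x| ≤ b * ‖x‖)
    (hk0 : ∀ x, |k0 x| ≤ b * ‖x‖) (hlim : ∀ x, Tendsto (fun j => k j x) atTop (𝓝 (k0 x))) (y : Z) :
    Tendsto (fun j => Wf ι S b (k j) y) atTop (𝓝 (Wf ι S b k0 y)) := by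
  refine tendsto_order.2 ⟨fun a ha => ?_, fun a ha => ?_⟩
  · by_contra hcon
    rw [not_eventually] at hcon
    obtain ⟨φ, hφ, hφ'⟩ := extraction_of_frequently_atTop hcon
    obtain ⟨ε, hε⟩ : ∃ ε, ε = (Wf ι S b k0 y - a) / 2 := ⟨_, rfl⟩
    have hε0 : 0 < ε := by rw [hε]; linarith
    have hex : ∀ j, ∃ e, Fn ι S b (k (φ j)) e y < Wf ι S b k0 y - ε := by
      intro j
      obtain ⟨e, he⟩ := exists_Fn_lt (ι := ι) (S := S) b (k (φ j)) y hε0
      refine ⟨e, he.trans_le ?_⟩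
      have := hφ' j
      push Not at this
      rw [hε] at *
      linarith
    choose e he using hex
    obtain ⟨R, hR⟩ : ∃ R, R = Wf ι S b k0 y - ε + 4 * b * ‖y‖ + (4 * b + 1) ^ 2 / 2 := ⟨_, rfl⟩
    have hbound : ∀ j, b * ‖(e j).1‖ + ‖(e j).2‖ ≤ R := by
      intro j
      have h1 := Fn_lower (ι := ι) hb.le hS (hk (φ j)) (e j) y
      have h2 := he j
      rw [hR]
      nlinarith [sq_nonneg (‖(e j).2‖ - (4 * b + 1))]
    have hb1 : ∀ j, ‖(e j).2‖ ≤ R := by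
      intro j
      have := hbound j
      have h2 := mul_nonneg hb.le (norm_nonneg (e j).1)
      linarith
    have hb2 : ∀ j, ‖(e j).1‖ ≤ R / b := by
      intro j
      have := hbound j
      have h2 := norm_nonneg (e j).2
      rw [le_div_iff₀ hb]
      linarith
    obtain ⟨ψ1, hψ1, u, hu⟩ := exists_subseq R (fun j => (e j).2) hb1
    obtain ⟨ψ2, hψ2, x, hx⟩ := exists_subseq (R / b) (fun j => (e (ψ1 j)).1) (fun j => hb2 _)
    have hu' : CoordTendsto (fun j => (e (ψ1 (ψ2 j))).2) u := fun i =>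
      (hu i).comp hψ2.tendsto_atTop
    have hSu := hSc _ u R hu' (fun j => hb1 _)
    have hyS : Tendsto (fun j => y - S (e (ψ1 (ψ2 j))).2) atTop (𝓝 (y - S u)) :=
      tendsto_const_nhds.sub hSu
    have hρ := rho_lsc ι hyS hx (e := ε / (16 * b)) (by positivity)
    have hkx : ∀ᶠ j in atTop, k (φ (ψ1 (ψ2 j))) x < k0 x + ε / 4 := by
      have : Tendsto (fun j => k (φ (ψ1 (ψ2 j))) x) atTop (𝓝 (k0 x)) :=
        (hlim x).comp (hφ.tendsto_atTop.comp (hψ1.tendsto_atTop.comp hψ2.tendsto_atTop))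
      exact this.eventually_lt_const (by linarith)
    have hu2 := eventually_sq_ge hu' (e := ε / 4) (by positivity)
    obtain ⟨j, hj1, hj2, hj3⟩ := (hρ.and (hkx.and hu2)).exists
    obtain ⟨m, hm⟩ : ∃ m, m = ψ1 (ψ2 j) := ⟨_, rfl⟩
    simp only [← hm] at hj1 hj2 hj3
    have h1 := he m
    have h2 := Wf_le (ι := ι) hb.le hS hk0 (x, u) y
    unfold Fn at h1 h2
    simp only at h2
    have e1 : y - S u + ι x = y + ι x - S u := by abel
    have e2 : y - S (e m).2 + ι (e m).1 = y + ι (e m).1 - S (e m).2 := by abel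
    rw [e1, e2] at hj1
    have h3 : k (φ m) (e m).1 = k (φ m) x + k (φ m) ((e m).1 - x) := by
      rw [map_sub]; ring
    have h4 := (abs_le.1 (hk (φ m) ((e m).1 - x))).2
    have h5 := mul_le_mul_of_nonneg_left hj1 (show 0 ≤ 4 * b by linarith)
    have h6 : 4 * b * (rho ι (y + ι x - S u) + ‖(e m).1 - x‖ / 2 - ε / (16 * b)) =
        4 * b * rho ι (y + ι x - S u) + 2 * b * ‖(e m).1 - x‖ - ε / 4 := by
      field_simp
      ring
    have h7 : 0 ≤ b * ‖(e m).1 - x‖ := by positivity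
    linarith
  · obtain ⟨e, he⟩ := exists_Fn_lt (ι := ι) (S := S) b k0 y (sub_pos.2 ha)
    rw [add_sub_cancel] at he
    have h1 : Tendsto (fun j => Fn ι S b (k j) e y) atTop (𝓝 (Fn ι S b k0 e y)) := by
      unfold Fn
      exact ((tendsto_const_nhds.sub (hlim e.1)).add_const _)
    filter_upwards [h1.eventually_lt_const he] with j hj
    exact (Wf_le (ι := ι) hb.le hS (hk j) e y).trans_lt hj

end

end Pool.Agent.H45.GS
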