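import Mathlib
import Pool.Agent.H45.GS.Cont

open Set Filter Topology
open scoped ENNReal

namespace Pool.Agent.H45.GS

lemma gnorm_neg {Z : Type*} [NormedAddCommGroup Z] [NormedSpace ℝ Z] {N : Z → ℝ}
    (hN : IsGNorm N) (x : Z) : N (-x) = N x := by
  have := hN.2.1 (-1) x
  simpa using this

lemma gnorm_zero {Z : Type*} [NormedAddCommGroup Z] [NormedSpace ℝ Z] {N : Z → ℝ}
    (hN : IsGNorm N) : N 0 = 0 := by
  have := hN.2.1 0 0
  simpa using this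

lemma gnorm_nonneg {Z : Type*} [NormedAddCommGroup Z] [NormedSpace ℝ Z] {N : Z → ℝ}
    (hN : IsGNorm N) (x : Z) : 0 ≤ N x := by
  obtain ⟨a, b, ha, hab⟩ := hN.2.2.1
  exact (mul_nonneg ha.le (norm_nonneg x)).trans (hab x).1

lemma gnorm_convex {Z : Type*} [NormedAddCommGroup Z] [NormedSpace ℝ Z] {N : Z → ℝ}
    (hN : IsGNorm N) : ConvexOn ℝ univ N := by
  refine ⟨convex_univ, ?_⟩
  intro x _ y _ p q hp hq _
  calc N (p • x + q • y) ≤ N (p • x) + N (q • y) := hN.1 _ _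
    _ = p • N x + q • N y := by
      rw [hN.2.1, hN.2.1, abs_of_nonneg hp, abs_of_nonneg hq, smul_eq_mul, smul_eq_mul]

lemma gnorm_continuous {Z : Type*} [NormedAddCommGroup Z] [NormedSpace ℝ Z] {N : Z → ℝ}
    (hN : IsGNorm N) : Continuous N := by
  obtain ⟨a, b, ha, hab⟩ := hN.2.2.1
  have key : ∀ x y, N x - N y ≤ (|b| + 1) * ‖x - y‖ := by
    intro x y
    have h1 := hN.1 (x - y) y
    rw [sub_add_cancel] at h1
    have h2 := (hab (x - y)).2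
    have h3 : b * ‖x - y‖ ≤ (|b| + 1) * ‖x - y‖ := by
      apply mul_le_mul_of_nonneg_right _ (norm_nonneg _)
      have := le_abs_self b
      linarith
    linarith
  refine (LipschitzWith.of_dist_le_mul (K := ⟨|b| + 1, by positivity⟩) fun x y => ?_).continuous
  rw [Real.dist_eq, dist_eq_norm, abs_le]
  change -((|b| + 1) * ‖x - y‖) ≤ _ ∧ _ ≤ (|b| + 1) * ‖x - y‖
  have h1 := key x y
  have h2 := key y x
  rw [norm_sub_rev] at h2
  constructor <;> linarith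

/-- Norming functionals. -/
lemma gnorm_norming {Z : Type*} [NormedAddCommGroup Z] [NormedSpace ℝ Z] {N : Z → ℝ}
    (hN : IsGNorm N) (x : Z) : ∃ f : Z →L[ℝ] ℝ, (∀ w, f w ≤ N w) ∧ f x = N x := by
  obtain ⟨f, hf⟩ := exists_subgradient (gnorm_convex hN) (gnorm_continuous hN) x
  have h1 := hf 0
  rw [gnorm_zero hN, zero_sub, map_neg] at h1
  have h2 := hf ((2 : ℝ) • x)
  have e1 : (2 : ℝ) • x - x = x := by rw [two_smul]; abel
  rw [e1, hN.2.1] at h2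
  norm_num at h2
  have h3 : f x = N x := by linarith
  refine ⟨f, fun w => ?_, h3⟩
  have h4 := hf w
  rw [map_sub] at h4
  linarith

/-- Šmulian's lemma. -/
lemma smulian {Z : Type*} [NormedAddCommGroup Z] [NormedSpace ℝ Z] {N : Z → ℝ}
    {x0 : Z} {f0 : Z →L[ℝ] ℝ}
    (hf0 : ∀ h : Z, HasDerivAt (fun t : ℝ => N (x0 + t • h)) (f0 h) 0)
    {k : ℕ → Z →L[ℝ] ℝ} (hk : ∀ j w, k j w ≤ N w)
    (hlim : Tendsto (fun j => k j x0) atTop (𝓝 (N x0))) (w : Z) :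
    Tendsto (fun j => k j w) atTop (𝓝 (f0 w)) := by
  have key : ∀ (w : Z) (e : ℝ), 0 < e → ∀ᶠ j in atTop, k j w < f0 w + e := by
    intro w e he
    have h1 := (hf0 w).tendsto_slope_zero_right
    have h2 : ∀ᶠ t in 𝓝[>] (0 : ℝ), t⁻¹ • (N (x0 + (0 + t) • w) - N (x0 + (0 : ℝ) • w)) <
        f0 w + e / 2 := h1.eventually_lt_const (by linarith)
    obtain ⟨t, ht, ht0⟩ := (h2.and self_mem_nhdsWithin).exists
    have ht0' : (0 : ℝ) < t := ht0
    rw [zero_add, zero_smul, add_zero, smul_eq_mul, inv_mul_lt_iff₀ ht0'] at ht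
    have h3 : ∀ᶠ j in atTop, N x0 - t * (e / 2) < k j x0 :=
      hlim.eventually_const_lt (by
        have : 0 < t * (e / 2) := by positivity
        linarith)
    filter_upwards [h3] with j hj
    have h4 := hk j (x0 + t • w)
    rw [map_add, map_smul, smul_eq_mul] at h4
    have h5 : t * k j w < t * (f0 w + e) := by
      have : t * (f0 w + e) = t * (f0 w + e / 2) + t * (e / 2) := by ring
      rw [this]
      linarith
    exact lt_of_mul_lt_mul_left h5 ht0'.le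
  refine tendsto_order.2 ⟨fun a ha => ?_, fun a ha => ?_⟩
  · filter_upwards [key (-w) (f0 w - a) (by linarith)] with j hj
    rw [map_neg, map_neg] at hj
    linarith
  · filter_upwards [key w (a - f0 w) (by linarith)] with j hj
    linarith

section

variable {Z : Type*} [NormedAddCommGroup Z] [NormedSpace ℝ Z] (ι : L1 →ₗᵢ[ℝ] Z) (S : L2 →L[ℝ] Z)

/-- The dual unit ball of `N`. -/
def KK (N : L1 → ℝ) : Type := {k : L1 →L[ℝ] ℝ // ∀ x, k x ≤ N x}

/-- The extension of `N`. -/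
noncomputable def N1 (N : L1 → ℝ) (b : ℝ) (z : Z) : ℝ :=
  ⨆ k : KK N, (Wf ι S b k.1 z - Wf ι S b k.1 0)

variable {ι S} {N : L1 → ℝ} {b : ℝ}

lemma KK_bound (hN : IsGNorm N) (hNb : ∀ x, N x ≤ b * ‖x‖) (k : KK N) (x : L1) :
    |k.1 x| ≤ b * ‖x‖ := by
  rw [abs_le]
  have h1 := k.2 x
  have h2 := k.2 (-x)
  rw [map_neg, gnorm_neg hN] at h2
  have h3 := hNb x
  constructor <;> linarith

lemma KK_nonempty (hN : IsGNorm N) : Nonempty (KK N) :=
  ⟨⟨0, fun x => by simpa using gnorm_nonneg hN x⟩⟩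

lemma N1_bdd (hN : IsGNorm N) (hb : 0 < b) (hNb : ∀ x, N x ≤ b * ‖x‖)
    (hS : ∀ u, ‖S u‖ ≤ ‖u‖) (z : Z) :
    BddAbove (range fun k : KK N => (Wf ι S b k.1 z - Wf ι S b k.1 0)) := by
  refine ⟨4 * b * ‖z‖, ?_⟩
  rintro _ ⟨k, rfl⟩
  have := Wf_lip (ι := ι) hb.le hS (KK_bound hN hNb k) z 0
  rwa [sub_zero] at this

lemma le_N1 (hN : IsGNorm N) (hb : 0 < b) (hNb : ∀ x, N x ≤ b * ‖x‖)
    (hS : ∀ u, ‖S u‖ ≤ ‖u‖) (z : Z) (k : KK N) :
    Wf ι S b k.1 z - Wf ι S b k.1 0 ≤ N1 ι S N b z :=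
  le_ciSup (N1_bdd (ι := ι) hN hb hNb hS z) k

lemma N1_le (hN : IsGNorm N) {z : Z} {r : ℝ}
    (h : ∀ k : KK N, Wf ι S b k.1 z - Wf ι S b k.1 0 ≤ r) : N1 ι S N b z ≤ r := by
  have := KK_nonempty hN
  exact ciSup_le h

lemma N1_lip (hN : IsGNorm N) (hb : 0 < b) (hNb : ∀ x, N x ≤ b * ‖x‖)
    (hS : ∀ u, ‖S u‖ ≤ ‖u‖) (z w : Z) :
    N1 ι S N b z - N1 ι S N b w ≤ 4 * b * ‖z - w‖ := by
  rw [sub_le_iff_le_add']
  refine N1_le hN fun k => ?_
  have h1 := le_N1 (ι := ι) hN hb hNb hS w k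
  have h2 := Wf_lip (ι := ι) hb.le hS (KK_bound hN hNb k) z w
  linarith

lemma N1_convex (hN : IsGNorm N) (hb : 0 < b) (hNb : ∀ x, N x ≤ b * ‖x‖)
    (hS : ∀ u, ‖S u‖ ≤ ‖u‖) : ConvexOn ℝ univ (N1 ι S N b) := by
  refine ⟨convex_univ, ?_⟩
  intro z _ w _ p q hp hq hpq
  refine N1_le hN fun k => ?_
  have h1 := (Wf_convex (ι := ι) hb.le hS (KK_bound hN hNb k)).2 (mem_univ z) (mem_univ w) hp hq hpq
  have h2 := mul_le_mul_of_nonneg_left (le_N1 (ι := ι) hN hb hNb hS z k) hp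
  have h3 := mul_le_mul_of_nonneg_left (le_N1 (ι := ι) hN hb hNb hS w k) hq
  simp only [smul_eq_mul] at h1 ⊢
  have h4 : p * Wf ι S b k.1 0 + q * Wf ι S b k.1 0 = Wf ι S b k.1 0 := by
    rw [← add_mul, hpq, one_mul]
  linarith

lemma N1_neg_le (hN : IsGNorm N) (hb : 0 < b) (hNb : ∀ x, N x ≤ b * ‖x‖)
    (hS : ∀ u, ‖S u‖ ≤ ‖u‖) (z : Z) : N1 ι S N b (-z) ≤ N1 ι S N b z := by
  refine N1_le hN fun k => ?_
  have hk' : ∀ x, (-k.1) x ≤ N x := by
    intro x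
    have := k.2 (-x)
    rwa [map_neg, gnorm_neg hN] at this
  have h1 := le_N1 (ι := ι) hN hb hNb hS z ⟨-k.1, hk'⟩
  have h2 := Wf_neg (ι := ι) (S := S) hb.le hS (KK_bound hN hNb k) (-z)
  have h3 := Wf_neg (ι := ι) (S := S) hb.le hS (KK_bound hN hNb k) 0
  rw [neg_neg] at h2
  rw [neg_zero] at h3
  simp only at h1
  rw [h2, h3] at h1
  exact h1

lemma N1_neg (hN : IsGNorm N) (hb : 0 < b) (hNb : ∀ x, N x ≤ b * ‖x‖)
    (hS : ∀ u, ‖S u‖ ≤ ‖u‖) (z : Z) : N1 ι S N b (-z) = N1 ι S N b z := by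
  apply le_antisymm (N1_neg_le hN hb hNb hS z)
  have := N1_neg_le (ι := ι) hN hb hNb hS (-z)
  rwa [neg_neg] at this

lemma Wf_iota_add (hN : IsGNorm N) (hb : 0 < b) (hNb : ∀ x, N x ≤ b * ‖x‖)
    (hS : ∀ u, ‖S u‖ ≤ ‖u‖) (k : KK N) (x : L1) (z : Z) :
    Wf ι S b k.1 (ι x + z) - Wf ι S b k.1 0 = k.1 x + (Wf ι S b k.1 z - Wf ι S b k.1 0) := by
  rw [Wf_trans hb.le hS (KK_bound hN hNb k)]
  ring

lemma N1_iota (hN : IsGNorm N) (hb : 0 < b) (hNb : ∀ x, N x ≤ b * ‖x‖)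
    (hS : ∀ u, ‖S u‖ ≤ ‖u‖) (x : L1) : N1 ι S N b (ι x) = N x := by
  have key : ∀ k : KK N, Wf ι S b k.1 (ι x) - Wf ι S b k.1 0 = k.1 x := by
    intro k
    have := Wf_iota_add (ι := ι) hN hb hNb hS k x 0
    rwa [add_zero, sub_self, add_zero] at this
  apply le_antisymm
  · refine N1_le hN fun k => ?_
    rw [key]; exact k.2 x
  · obtain ⟨f, hf, hfx⟩ := gnorm_norming hN x
    have h1 := le_N1 (ι := ι) hN hb hNb hS (ι x) ⟨f, hf⟩
    have h2 := key ⟨f, hf⟩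
    simp only at h1 h2
    rw [h2, hfx] at h1
    exact h1

lemma N1_nonneg (hN : IsGNorm N) (hb : 0 < b) (hNb : ∀ x, N x ≤ b * ‖x‖)
    (hS : ∀ u, ‖S u‖ ≤ ‖u‖) (z : Z) : 0 ≤ N1 ι S N b z := by
  have h0 : N1 ι S N b (0 : Z) = 0 := by
    have := N1_iota (ι := ι) hN hb hNb hS 0
    rwa [map_zero, gnorm_zero hN] at this
  have h1 := (N1_convex (ι := ι) hN hb hNb hS).2 (mem_univ z) (mem_univ (-z))
    (show (0 : ℝ) ≤ 1 / 2 by norm_num) (show (0 : ℝ) ≤ 1 / 2 by norm_num) (by norm_num)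
  rw [smul_neg, add_neg_cancel, h0, N1_neg hN hb hNb hS, smul_eq_mul] at h1
  linarith

lemma convex_slope {W : Z → ℝ} (hW : ConvexOn ℝ univ W) (h : Z) {s t : ℝ} (hs : 0 < s)
    (hst : s ≤ t) : W (s • h) - W 0 ≤ s / t * (W (t • h) - W 0) := by
  have ht : 0 < t := hs.trans_le hst
  have h1 := hW.2 (mem_univ (t • h)) (mem_univ (0 : Z)) (div_nonneg hs.le ht.le)
    (sub_nonneg.2 ((div_le_one ht).2 hst)) (by ring : s / t + (1 - s / t) = 1)
  rw [smul_zero, add_zero, smul_smul, div_mul_cancel₀ _ ht.ne'] at h1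
  simp only [smul_eq_mul] at h1
  linarith

/-- `N1` is Gateaux smooth at the points of `ι ℓ¹ ∖ 0`. -/
lemma N1_sd (hN : IsGNorm N) (hb : 0 < b) (hNb : ∀ x, N x ≤ b * ‖x‖)
    (hS : ∀ u, ‖S u‖ ≤ ‖u‖) (hSd : DenseRange S)
    (hSc : ∀ (u : ℕ → L2) (v : L2) (R : ℝ), CoordTendsto u v → (∀ j, ‖u j‖ ≤ R) →
        Tendsto (fun j => S (u j)) atTop (𝓝 (S v)))
    {x0 : L1} (hx0 : x0 ≠ 0) (h : Z) : SD (N1 ι S N b) (ι x0) h := by
  obtain ⟨f0, hf0⟩ := hN.2.2.2 x0 hx0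
  by_contra hcon
  unfold SD at hcon
  push Not at hcon
  obtain ⟨e, he, hcon⟩ := hcon
  have hex : ∀ j : ℕ, ∃ t : ℝ, 0 < t ∧ t < 1 / (j + 1) ∧
      e * t < N1 ι S N b (ι x0 + t • h) + N1 ι S N b (ι x0 - t • h) - 2 * N1 ι S N b (ι x0) :=
    fun j => hcon (1 / (j + 1)) (by positivity)
  choose t ht0 ht1 ht2 using hex
  have htlim : Tendsto t atTop (𝓝 0) :=
    squeeze_zero (fun j => (ht0 j).le) (fun j => (ht1 j).le) tendsto_one_div_add_atTop_nhds_zero_nat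
  have hne := KK_nonempty hN
  have hk : ∀ j, ∃ k : KK N, N1 ι S N b (ι x0 + t j • h) - e * t j / 4 <
      Wf ι S b k.1 (ι x0 + t j • h) - Wf ι S b k.1 0 := fun j =>
    exists_lt_of_lt_ciSup (show N1 ι S N b (ι x0 + t j • h) - e * t j / 4 <
      N1 ι S N b (ι x0 + t j • h) by
        have := mul_pos he (ht0 j)
        linarith)
  have hl : ∀ j, ∃ k : KK N, N1 ι S N b (ι x0 - t j • h) - e * t j / 4 <
      Wf ι S b k.1 (ι x0 - t j • h) - Wf ι S b k.1 0 := fun j =>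
    exists_lt_of_lt_ciSup (show N1 ι S N b (ι x0 - t j • h) - e * t j / 4 <
      N1 ι S N b (ι x0 - t j • h) by
        have := mul_pos he (ht0 j)
        linarith)
  choose k hk using hk
  choose l hl using hl
  have hk1 : ∀ j, N1 ι S N b (ι x0 + t j • h) - e * t j / 4 <
      (k j).1 x0 + (Wf ι S b (k j).1 (t j • h) - Wf ι S b (k j).1 0) := by
    intro j
    have := hk j
    rwa [Wf_iota_add hN hb hNb hS] at this
  have hl1 : ∀ j, N1 ι S N b (ι x0 - t j • h) - e * t j / 4 <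
      (l j).1 x0 + (Wf ι S b (l j).1 (t j • -h) - Wf ι S b (l j).1 0) := by
    intro j
    have := hl j
    rw [sub_eq_add_neg (ι x0), ← smul_neg, Wf_iota_add hN hb hNb hS] at this
    rwa [sub_eq_add_neg (ι x0), ← smul_neg]
  -- `k j x0 → N x0`
  have aux : ∀ (m : ℕ → KK N) (h : Z), (∀ j, N1 ι S N b (ι x0 + t j • h) - e * t j / 4 <
      (m j).1 x0 + (Wf ι S b (m j).1 (t j • h) - Wf ι S b (m j).1 0)) →
      Tendsto (fun j => (m j).1 x0) atTop (𝓝 (N x0)) := by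
    intro m h hm
    have hlow : ∀ j, N x0 - t j * (e / 4 + 8 * b * ‖h‖) ≤ (m j).1 x0 := by
      intro j
      have h1 := hm j
      have h2 := N1_lip (ι := ι) hN hb hNb hS (ι x0) (ι x0 + t j • h)
      have h3 := Wf_lip (ι := ι) hb.le hS (KK_bound hN hNb (m j)) (t j • h) 0
      rw [N1_iota hN hb hNb hS] at h2
      have e1 : ι x0 - (ι x0 + t j • h) = -(t j • h) := by abel
      rw [e1, norm_neg, norm_smul, Real.norm_of_nonneg (ht0 j).le] at h2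
      rw [sub_zero, norm_smul, Real.norm_of_nonneg (ht0 j).le] at h3
      nlinarith
    have h1 : Tendsto (fun j => N x0 - t j * (e / 4 + 8 * b * ‖h‖)) atTop (𝓝 (N x0)) := by
      have := (tendsto_const_nhds (x := N x0)).sub (htlim.mul_const (e / 4 + 8 * b * ‖h‖))
      rwa [zero_mul, sub_zero] at this
    exact tendsto_of_tendsto_of_tendsto_of_le_of_le h1 tendsto_const_nhds hlow
      (fun j => (m j).2 x0)
  have hkx := aux k h hk1
  have hlx := aux l (-h) (by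
    intro j
    have := hl1 j
    rwa [sub_eq_add_neg (ι x0), ← smul_neg] at this)
  have hkw := smulian hf0 (fun j => (k j).2) hkx
  have hlw := smulian hf0 (fun j => (l j).2) hlx
  have hf0b : ∀ x, |f0 x| ≤ b * ‖x‖ := by
    intro x
    exact le_of_tendsto' (hkw x).abs fun j => KK_bound hN hNb (k j) x
  have hkW : ∀ y, Tendsto (fun j => Wf ι S b (k j).1 y) atTop (𝓝 (Wf ι S b f0 y)) :=
    Wf_tendsto hb hS hSc (fun j => KK_bound hN hNb (k j)) hf0b hkw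
  have hlW : ∀ y, Tendsto (fun j => Wf ι S b (l j).1 y) atTop (𝓝 (Wf ι S b f0 y)) :=
    Wf_tendsto hb hS hSc (fun j => KK_bound hN hNb (l j)) hf0b hlw
  -- the limit function is smooth at `0`
  have hsd : SD (Wf ι S b f0) 0 h := by
    refine sd_of_dense hSd (L := 4 * b) (r := 1) one_pos
      (fun w w' _ _ => Wf_lip hb.le hS hf0b w w') (fun v => ⟨‖v‖ ^ 2, 1, one_pos, ?_⟩) h
    intro t _ _
    have := Wf_second (ι := ι) hb.le hS hf0b 0 v t
    linarith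
  obtain ⟨d, hd, hd'⟩ := hsd (e / 8) (by positivity)
  obtain ⟨τ, hτ⟩ : ∃ τ, τ = d / 2 := ⟨_, rfl⟩
  have hτ0 : 0 < τ := by rw [hτ]; linarith
  have h1 := hd' τ hτ0 (by rw [hτ]; linarith)
  rw [zero_add, zero_sub, ← smul_neg] at h1
  have hlim : Tendsto (fun j => (Wf ι S b (k j).1 (τ • h) - Wf ι S b (k j).1 0) +
      (Wf ι S b (l j).1 (τ • -h) - Wf ι S b (l j).1 0)) atTop
      (𝓝 ((Wf ι S b f0 (τ • h) - Wf ι S b f0 0) + (Wf ι S b f0 (τ • -h) - Wf ι S b f0 0))) :=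
    ((hkW _).sub (hkW _)).add ((hlW _).sub (hlW _))
  have hpos := mul_pos he hτ0
  have hev := hlim.eventually_lt_const (show _ < e / 4 * τ by linarith)
  have hev2 := htlim.eventually_le_const hτ0
  obtain ⟨j, hj1, hj2⟩ := (hev.and hev2).exists
  have c1 := convex_slope (Wf_convex (ι := ι) hb.le hS (KK_bound hN hNb (k j))) h (ht0 j) hj2
  have c2 := convex_slope (Wf_convex (ι := ι) hb.le hS (KK_bound hN hNb (l j))) (-h) (ht0 j) hj2
  have c3 : t j / τ * ((Wf ι S b (k j).1 (τ • h) - Wf ι S b (k j).1 0) +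
      (Wf ι S b (l j).1 (τ • -h) - Wf ι S b (l j).1 0)) ≤ t j / τ * (e / 4 * τ) :=
    mul_le_mul_of_nonneg_left hj1.le (div_nonneg (ht0 j).le hτ0.le)
  have c4 : t j / τ * (e / 4 * τ) = e / 4 * t j := by field_simp
  have c5 := hk1 j
  have c6 := hl1 j
  have c7 := ht2 j
  have c8 := (k j).2 x0
  have c9 := (l j).2 x0
  rw [N1_iota hN hb hNb hS] at c7
  have c10 := mul_pos he (ht0 j)
  rw [mul_add] at c3
  linarith

end

end Pool.Agent.H45.GS
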