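import Mathlib
import Pool.Agent.H45.GS.N1

open Set Filter Topology
open scoped ENNReal

namespace Pool.Agent.H45.GS

section general

variable {Z : Type*} [NormedAddCommGroup Z] [NormedSpace ℝ Z]

lemma sd_of_sq {W : Z → ℝ} {z h : Z} {C d : ℝ} (hd : 0 < d)
    (hW : ∀ t : ℝ, 0 < t → t < d → W (z + t • h) + W (z - t • h) - 2 * W z ≤ C * t ^ 2) :
    SD W z h := by
  intro e he
  obtain ⟨C', hC'⟩ : ∃ C', C' = |C| + 1 := ⟨_, rfl⟩
  have hC'0 : 0 < C' := by rw [hC']; positivity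
  refine ⟨min d (e / C'), lt_min hd (by positivity), ?_⟩
  intro t ht htd
  have ht1 : t < d := lt_of_lt_of_le htd (min_le_left _ _)
  have ht2 : t < e / C' := lt_of_lt_of_le htd (min_le_right _ _)
  have h1 := hW t ht ht1
  rw [lt_div_iff₀ hC'0] at ht2
  have h2 : C * t ^ 2 ≤ C' * t ^ 2 := by
    apply mul_le_mul_of_nonneg_right _ (by positivity)
    rw [hC']
    have := le_abs_self C
    linarith
  nlinarith

lemma SD.add {V W : Z → ℝ} {z h : Z} (hV : SD V z h) (hW : SD W z h) :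
    SD (fun z => V z + W z) z h := by
  intro e he
  obtain ⟨d, hd, hd'⟩ := hV (e / 2) (by linarith)
  obtain ⟨d2, hd2, hd2'⟩ := hW (e / 2) (by linarith)
  refine ⟨min d d2, lt_min hd hd2, fun t ht htd => ?_⟩
  have h1 := hd' t ht (lt_of_lt_of_le htd (min_le_left _ _))
  have h2 := hd2' t ht (lt_of_lt_of_le htd (min_le_right _ _))
  simp only
  linarith

lemma SD.sq {W : Z → ℝ} {z h : Z} (hW : SD W z h) (h0 : 0 ≤ W z) {L : ℝ}
    (hL : ∀ w w', W w - W w' ≤ L * ‖w - w'‖) : SD (fun z => W z ^ 2) z h := by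
  intro e he
  obtain ⟨d, hd, hd'⟩ := hW (e / (4 * (W z + 1))) (by positivity)
  obtain ⟨L', hL'⟩ : ∃ L', L' = 2 * (L * ‖h‖) ^ 2 + 1 := ⟨_, rfl⟩
  have hL'0 : 0 < L' := by rw [hL']; positivity
  refine ⟨min d (e / (2 * L')), lt_min hd (by positivity), fun t ht htd => ?_⟩
  have ht1 : t < d := lt_of_lt_of_le htd (min_le_left _ _)
  have ht2 : t < e / (2 * L') := lt_of_lt_of_le htd (min_le_right _ _)
  have h1 := hd' t ht ht1
  simp only
  obtain ⟨p, hp⟩ : ∃ p, p = W (z + t • h) - W z := ⟨_, rfl⟩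
  obtain ⟨q, hq⟩ : ∃ q, q = W (z - t • h) - W z := ⟨_, rfl⟩
  have hW1 : W (z + t • h) = W z + p := by rw [hp]; ring
  have hW2 : W (z - t • h) = W z + q := by rw [hq]; ring
  rw [hW1, hW2] at h1 ⊢
  have hn : ‖t • h‖ = t * ‖h‖ := by rw [norm_smul, Real.norm_of_nonneg ht.le]
  have a1 : p ≤ t * (L * ‖h‖) := by
    have := hL (z + t • h) z
    rw [add_sub_cancel_left, hn] at this
    rw [hp]; linarith
  have a2 : -p ≤ t * (L * ‖h‖) := by
    have := hL z (z + t • h)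
    rw [sub_add_cancel_left, norm_neg, hn] at this
    rw [hp]; linarith
  have a3 : q ≤ t * (L * ‖h‖) := by
    have := hL (z - t • h) z
    rw [sub_sub_cancel_left, norm_neg, hn] at this
    rw [hq]; linarith
  have a4 : -q ≤ t * (L * ‖h‖) := by
    have := hL z (z - t • h)
    rw [sub_sub_cancel, hn] at this
    rw [hq]; linarith
  have b1 : p ^ 2 ≤ (t * (L * ‖h‖)) ^ 2 := sq_le_sq' (by linarith) a1
  have b2 : q ^ 2 ≤ (t * (L * ‖h‖)) ^ 2 := sq_le_sq' (by linarith) a3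
  have b3 : 2 * W z * (p + q) ≤ e / 2 * t := by
    have c1 : p + q ≤ e / (4 * (W z + 1)) * t := by linarith
    have c2 : 2 * W z * (p + q) ≤ 2 * W z * (e / (4 * (W z + 1)) * t) :=
      mul_le_mul_of_nonneg_left c1 (by linarith)
    have c3 : 2 * W z * (e / (4 * (W z + 1)) * t) ≤ 2 * (W z + 1) * (e / (4 * (W z + 1)) * t) :=
      mul_le_mul_of_nonneg_right (by linarith) (by positivity)
    have c4 : 2 * (W z + 1) * (e / (4 * (W z + 1)) * t) = e / 2 * t := by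
      field_simp
      ring
    linarith
  have b4 : t * L' ≤ e / 2 := by
    rw [lt_div_iff₀ (by positivity)] at ht2
    linarith
  have b5 : 2 * (t * (L * ‖h‖)) ^ 2 ≤ e / 2 * t := by
    have : 2 * (t * (L * ‖h‖)) ^ 2 = t * (t * (2 * (L * ‖h‖) ^ 2)) := by ring
    rw [this]
    have c1 : t * (2 * (L * ‖h‖) ^ 2) ≤ t * L' := by
      apply mul_le_mul_of_nonneg_left _ ht.le
      rw [hL']; linarith
    nlinarith
  nlinarith

end general

section

variable {Z : Type*} [NormedAddCommGroup Z] [NormedSpace ℝ Z]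

/-- The range of the embedding. -/
noncomputable def RR (ι : L1 →ₗᵢ[ℝ] Z) : Submodule ℝ Z := LinearMap.range ι.toLinearMap

lemma iota_mem_RR (ι : L1 →ₗᵢ[ℝ] Z) (x : L1) : ι x ∈ RR ι := ⟨x, rfl⟩

/-- Distance to the range. -/
noncomputable def dd (ι : L1 →ₗᵢ[ℝ] Z) (z : Z) : ℝ := ‖(Submodule.Quotient.mk z : Z ⧸ RR ι)‖

variable (ι : L1 →ₗᵢ[ℝ] Z)

lemma dd_nonneg (z : Z) : 0 ≤ dd ι z := norm_nonneg _

lemma dd_le (z : Z) : dd ι z ≤ ‖z‖ := Submodule.Quotient.norm_mk_le _ z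

lemma dd_add_iota (x : L1) (z : Z) : dd ι (ι x + z) = dd ι z := by
  unfold dd
  have : (Submodule.Quotient.mk (ι x + z) : Z ⧸ RR ι) = Submodule.Quotient.mk z := by
    rw [Submodule.Quotient.eq]
    rw [add_sub_cancel_right]
    exact iota_mem_RR ι x
  rw [this]

lemma dd_smul (c : ℝ) (z : Z) : dd ι (c • z) = |c| * dd ι z := by
  unfold dd
  rw [Submodule.Quotient.mk_smul, norm_smul, Real.norm_eq_abs]

lemma dd_zero : dd ι 0 = 0 := by
  unfold dd
  rw [Submodule.Quotient.mk_zero, norm_zero]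

lemma dd_iota (x : L1) : dd ι (ι x) = 0 := by
  have := dd_add_iota ι x 0
  rwa [add_zero, dd_zero] at this

lemma dd_neg (z : Z) : dd ι (-z) = dd ι z := by
  have := dd_smul ι (-1) z
  simpa using this

lemma dd_add_le (z w : Z) : dd ι (z + w) ≤ dd ι z + dd ι w := by
  unfold dd
  rw [Submodule.Quotient.mk_add]
  exact norm_add_le _ _

lemma dd_convex : ConvexOn ℝ univ (dd ι) := by
  refine ⟨convex_univ, ?_⟩
  intro x _ y _ p q hp hq _
  calc dd ι (p • x + q • y) ≤ dd ι (p • x) + dd ι (q • y) := dd_add_le ι _ _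
    _ = p • dd ι x + q • dd ι y := by
      rw [dd_smul, dd_smul, abs_of_nonneg hp, abs_of_nonneg hq, smul_eq_mul, smul_eq_mul]

lemma exists_dd (z : Z) {e : ℝ} (he : 0 < e) : ∃ x : L1, ‖z - ι x‖ < dd ι z + e := by
  obtain ⟨m, hm, hm'⟩ := Submodule.Quotient.norm_mk_lt (Submodule.Quotient.mk z : Z ⧸ RR ι) he
  rw [Submodule.Quotient.eq] at hm
  obtain ⟨x, hx⟩ := hm
  have hx' : ι x = m - z := hx
  refine ⟨-x, ?_⟩
  rw [map_neg, hx']
  have : z - -(m - z) = m := by abel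
  rw [this]
  exact hm'

end

/-- Summary of the first smoothing step. -/
theorem exists_G {Z : Type*} [NormedAddCommGroup Z] [NormedSpace ℝ Z] [CompleteSpace Z]
    [TopologicalSpace.SeparableSpace Z] (ι : L1 →ₗᵢ[ℝ] Z) {N : L1 → ℝ} (hN : IsGNorm N) :
    ∃ (G : Z → ℝ) (S : L2 →L[ℝ] Z) (C B c : ℝ), 0 < C ∧ 0 < B ∧ 0 < c ∧ DenseRange S ∧
      (∀ u, ‖S u‖ ≤ ‖u‖) ∧ ConvexOn ℝ univ G ∧ (∀ z, 0 ≤ G z) ∧ (∀ z, G (-z) = G z) ∧
      (∀ x, G (ι x) = N x ^ 2) ∧ (∀ x w, N x ≤ 1 → N x ^ 2 ≤ G (ι x - w) + C * ‖w‖) ∧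
      (∀ x, x ≠ 0 → ∀ h, SD G (ι x) h) ∧ (∀ z, G z ≤ B * ‖z‖ ^ 2) ∧
      (∀ z, c * ‖z‖ ^ 2 ≤ G z) := by
  obtain ⟨a, b0, ha, hab⟩ := hN.2.2.1
  obtain ⟨b, hb⟩ : ∃ b, b = |b0| + 1 := ⟨_, rfl⟩
  have hb0 : 0 < b := by rw [hb]; positivity
  have hNb : ∀ x, N x ≤ b * ‖x‖ := by
    intro x
    refine (hab x).2.trans ?_
    apply mul_le_mul_of_nonneg_right _ (norm_nonneg _)
    rw [hb]
    have := le_abs_self b0
    linarith
  obtain ⟨S, hSd, hS, hSc⟩ := exists_op Z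
  have hlip := N1_lip (ι := ι) hN hb0 hNb hS
  have hnn := N1_nonneg (ι := ι) hN hb0 hNb hS
  have hio := N1_iota (ι := ι) hN hb0 hNb hS
  obtain ⟨A, hA⟩ : ∃ A, A = 1 / a + (4 * b / a + 1) := ⟨_, rfl⟩
  have hA0 : 0 < A := by rw [hA]; positivity
  refine ⟨fun z => N1 ι S N b z ^ 2 + dd ι z ^ 2, S, 8 * b, (4 * b) ^ 2 + 1, 1 / (2 * A ^ 2),
    by positivity, by positivity, by positivity, hSd, hS, ?_, ?_, ?_, ?_, ?_, ?_, ?_, ?_⟩
  · exact ((N1_convex (ι := ι) hN hb0 hNb hS).pow (fun z _ => hnn z) 2).add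
      ((dd_convex ι).pow (fun z _ => dd_nonneg ι z) 2)
  · intro z; positivity
  · intro z
    simp only
    rw [N1_neg hN hb0 hNb hS, dd_neg]
  · intro x
    simp only
    rw [hio, dd_iota]
    ring
  · intro x w hx
    simp only
    have h1 := hlip (ι x) (ι x - w)
    rw [hio, sub_sub_cancel] at h1
    have h2 := hnn (ι x - w)
    have h3 := gnorm_nonneg hN x
    have h4 := norm_nonneg w
    have h5 : 0 ≤ dd ι (ι x - w) ^ 2 := by positivity
    have h6 : N x ^ 2 ≤ N1 ι S N b (ι x - w) ^ 2 + 2 * N x * (4 * b * ‖w‖) := by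
      obtain ⟨c, hc⟩ : ∃ c, c = 4 * b * ‖w‖ := ⟨_, rfl⟩
      have hc0 : 0 ≤ c := by rw [hc]; positivity
      rw [← hc] at h1 ⊢
      rcases le_total (N x) c with h7 | h7
      · have : N x * N x ≤ N x * c := mul_le_mul_of_nonneg_left h7 h3
        have h8 := sq_nonneg (N1 ι S N b (ι x - w))
        nlinarith
      · have : (N x - c) ^ 2 ≤ N1 ι S N b (ι x - w) ^ 2 :=
          pow_le_pow_left₀ (by linarith) (by linarith) 2
        nlinarith [sq_nonneg c]
    have h7 : 2 * N x * (4 * b * ‖w‖) ≤ 8 * b * ‖w‖ := by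
      have h8 : 0 ≤ 8 * b * ‖w‖ := by positivity
      nlinarith
    linarith
  · intro x hx h
    refine SD.add ?_ ?_
    · exact (N1_sd hN hb0 hNb hS hSd hSc hx h).sq (hnn _) hlip
    · refine sd_of_sq (C := 2 * dd ι h ^ 2) (d := 1) one_pos fun t ht _ => ?_
      rw [sub_eq_add_neg (ι x), dd_add_iota, dd_add_iota, dd_neg, dd_iota, dd_smul, mul_pow, sq_abs]
      linarith
  · intro z
    simp only
    have h1 := hlip z 0
    have h0 : N1 ι S N b (0 : Z) = 0 := by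
      have := hio 0
      rwa [map_zero, gnorm_zero hN] at this
    rw [h0, sub_zero, sub_zero] at h1
    have h2 := hnn z
    have h3 := dd_nonneg ι z
    have h4 := dd_le ι z
    have h5 : N1 ι S N b z ^ 2 ≤ (4 * b * ‖z‖) ^ 2 := pow_le_pow_left₀ h2 h1 2
    have h6 : dd ι z ^ 2 ≤ ‖z‖ ^ 2 := pow_le_pow_left₀ h3 h4 2
    nlinarith
  · intro z
    simp only
    have h1 : ‖z‖ ≤ N1 ι S N b z / a + (4 * b / a + 1) * dd ι z := by
      refine le_of_forall_pos_le_add fun e he => ?_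
      obtain ⟨x, hx⟩ := exists_dd ι z (e := e / (4 * b / a + 1)) (by positivity)
      have c1 : ‖z‖ ≤ ‖x‖ + ‖z - ι x‖ := by
        have : z = ι x + (z - ι x) := by abel
        calc ‖z‖ = ‖ι x + (z - ι x)‖ := by rw [← this]
          _ ≤ ‖ι x‖ + ‖z - ι x‖ := norm_add_le _ _
          _ = _ := by rw [ι.norm_map]
      have c2 : ‖x‖ ≤ N x / a := by
        rw [le_div_iff₀ ha, mul_comm]
        exact (hab x).1
      have c3 := hlip (ι x) z
      rw [hio, norm_sub_rev] at c3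
      have c4 : N x / a ≤ (N1 ι S N b z + 4 * b * ‖z - ι x‖) / a :=
        div_le_div_of_nonneg_right (by linarith) ha.le
      have c5 : (N1 ι S N b z + 4 * b * ‖z - ι x‖) / a + ‖z - ι x‖ =
          N1 ι S N b z / a + (4 * b / a + 1) * ‖z - ι x‖ := by
        field_simp
        ring
      have c6 : (4 * b / a + 1) * ‖z - ι x‖ ≤
          (4 * b / a + 1) * (dd ι z + e / (4 * b / a + 1)) :=
        mul_le_mul_of_nonneg_left hx.le (by positivity)
      have c7 : (4 * b / a + 1) * (dd ι z + e / (4 * b / a + 1)) =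
          (4 * b / a + 1) * dd ι z + e := by
        have : 4 * b / a + 1 ≠ 0 := by positivity
        field_simp
      linarith
    have h2 := hnn z
    have h3 := dd_nonneg ι z
    have h4 : N1 ι S N b z / a ≤ A * N1 ι S N b z := by
      rw [hA]
      have : 0 ≤ (4 * b / a + 1) * N1 ι S N b z := by positivity
      have e1 : N1 ι S N b z / a = 1 / a * N1 ι S N b z := by ring
      rw [e1, add_mul]
      linarith
    have h5 : (4 * b / a + 1) * dd ι z ≤ A * dd ι z := by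
      rw [hA]
      have : 0 ≤ 1 / a * dd ι z := by positivity
      rw [add_mul (1 / a)]
      linarith
    have h6 : ‖z‖ ^ 2 ≤ (A * (N1 ι S N b z + dd ι z)) ^ 2 :=
      pow_le_pow_left₀ (norm_nonneg _) (by linarith) 2
    rw [div_mul_eq_mul_div, one_mul, div_le_iff₀ (by positivity)]
    refine h6.trans ?_
    rw [mul_pow]
    have h7 : (N1 ι S N b z + dd ι z) ^ 2 ≤ 2 * (N1 ι S N b z ^ 2 + dd ι z ^ 2) := by
      nlinarith [sq_nonneg (N1 ι S N b z - dd ι z)]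
    have h8 := mul_le_mul_of_nonneg_left h7 (show 0 ≤ A ^ 2 by positivity)
    linarith

end Pool.Agent.H45.GS
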