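import Mathlib
import Pool.Agent.H45.GS.G

open Set Filter Topology
open scoped ENNReal

namespace Pool.Agent.H45.GS

section

variable {Z : Type*} [NormedAddCommGroup Z] [NormedSpace ℝ Z]

lemma hasSum_quarter : HasSum (fun i : ℕ => (1 / 4 : ℝ) ^ i) (4 / 3) := by
  have := hasSum_geometric_of_lt_one (r := (1 / 4 : ℝ)) (by norm_num) (by norm_num)
  norm_num at this
  norm_num
  exact this

lemma Q_term (f : ℕ → Z →L[ℝ] ℝ) (hf : ∀ i, ‖f i‖ ≤ 1) (z : Z) (i : ℕ) :
    ‖(1 / 2 : ℝ) ^ i * f i z‖ ^ (2 : ℝ≥0∞).toReal ≤ (1 / 4 : ℝ) ^ i * ‖z‖ ^ 2 := by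
  have h1 : ‖f i z‖ ≤ ‖z‖ := by
    have := (f i).le_of_opNorm_le (hf i) z
    rwa [one_mul] at this
  have h2 : (2 : ℝ≥0∞).toReal = 2 := by norm_num
  rw [h2, Real.rpow_two, norm_mul, mul_pow, norm_pow, ← pow_mul, mul_comm i 2, pow_mul]
  have h3 : ‖(1 / 2 : ℝ)‖ ^ 2 = 1 / 4 := by norm_num
  rw [h3]
  exact mul_le_mul_of_nonneg_left (pow_le_pow_left₀ (norm_nonneg _) h1 2) (by positivity)

lemma Q_mem (f : ℕ → Z →L[ℝ] ℝ) (hf : ∀ i, ‖f i‖ ≤ 1) (z : Z) :
    Memℓp (fun i => (1 / 2 : ℝ) ^ i * f i z) 2 := by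
  apply memℓp_gen
  refine Summable.of_nonneg_of_le (fun i => by positivity) (Q_term f hf z) ?_
  exact hasSum_quarter.summable.mul_right _

/-- The operator `z ↦ (2^{-i} f_i(z))_i`. -/
noncomputable def opQ (f : ℕ → Z →L[ℝ] ℝ) (hf : ∀ i, ‖f i‖ ≤ 1) : Z →L[ℝ] L2 :=
  LinearMap.mkContinuous
    { toFun := fun z => ⟨fun i => (1 / 2 : ℝ) ^ i * f i z, Q_mem f hf z⟩
      map_add' := fun z w => by
        apply lp.ext
        funext i
        change (1 / 2 : ℝ) ^ i * f i (z + w) = (1 / 2 : ℝ) ^ i * f i z + (1 / 2 : ℝ) ^ i * f i w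
        rw [map_add, mul_add]
      map_smul' := fun c z => by
        apply lp.ext
        funext i
        change (1 / 2 : ℝ) ^ i * f i (c • z) = c * ((1 / 2 : ℝ) ^ i * f i z)
        rw [map_smul, smul_eq_mul]
        ring }
    2 (fun z => by
      refine lp.norm_le_of_tsum_le (p := 2) (by norm_num) (by positivity) ?_
      have h1 : ∑' i, ‖(1 / 2 : ℝ) ^ i * f i z‖ ^ (2 : ℝ≥0∞).toReal ≤ 4 / 3 * ‖z‖ ^ 2 := by
        have h2 := hasSum_quarter.mul_right (‖z‖ ^ 2)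
        rw [← h2.tsum_eq]
        refine Summable.tsum_le_tsum (Q_term f hf z) ?_ h2.summable
        exact Summable.of_nonneg_of_le (fun i => by positivity) (Q_term f hf z) h2.summable
      refine h1.trans ?_
      have h2 : (2 : ℝ≥0∞).toReal = 2 := by norm_num
      rw [h2, Real.rpow_two, mul_pow]
      have := sq_nonneg ‖z‖
      linarith)

lemma opQ_apply (f : ℕ → Z →L[ℝ] ℝ) (hf : ∀ i, ‖f i‖ ≤ 1) (z : Z) (i : ℕ) :
    opQ f hf z i = (1 / 2 : ℝ) ^ i * f i z := rfl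

end

theorem exists_Q {Z : Type*} [NormedAddCommGroup Z] [NormedSpace ℝ Z] [CompleteSpace Z]
    [TopologicalSpace.SeparableSpace Z] (ι : L1 →ₗᵢ[ℝ] Z) :
    ∃ Q : Z →L[ℝ] L2, ∀ z, Q z = 0 ↔ ∃ x, ι x = z := by
  obtain ⟨w, hw⟩ := TopologicalSpace.exists_dense_seq Z
  have hex : ∀ i, ∃ f : Z →L[ℝ] ℝ, (∀ z, |f z| ≤ dd ι z) ∧ f (w i) = dd ι (w i) := by
    intro i
    obtain ⟨g, hg1, hg2⟩ := exists_dual_vector'' ℝ (Submodule.Quotient.mk (w i) : Z ⧸ RR ι)
    have hb : ∀ z, |g (Submodule.Quotient.mk z : Z ⧸ RR ι)| ≤ dd ι z := by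
      intro z
      have := g.le_of_opNorm_le hg1 (Submodule.Quotient.mk z : Z ⧸ RR ι)
      rwa [one_mul] at this
    refine ⟨LinearMap.mkContinuous (g.toLinearMap.comp (Submodule.mkQ (RR ι))) 1 (fun z => ?_),
      hb, hg2⟩
    rw [one_mul]
    exact (hb z).trans (dd_le ι z)
  choose f hf1 hf2 using hex
  have hfn : ∀ i, ‖f i‖ ≤ 1 := fun i =>
    ContinuousLinearMap.opNorm_le_bound _ zero_le_one fun z => by
      rw [one_mul]
      exact (hf1 i z).trans (dd_le ι z)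
  have hclosed : IsClosed (range ι) := ι.isometry.isClosedEmbedding.isClosed_range
  refine ⟨opQ f hfn, fun z => ⟨fun hz => ?_, ?_⟩⟩
  · have hz' : ∀ i, f i z = 0 := by
      intro i
      have : opQ f hfn z i = (0 : L2) i := by rw [hz]
      rw [opQ_apply] at this
      have h2 : (0 : L2) i = 0 := rfl
      rw [h2] at this
      rcases mul_eq_zero.1 this with h3 | h3
      · exact absurd h3 (by positivity)
      · exact h3
    have hd : ∀ e : ℝ, 0 < e → dd ι z < e := by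
      intro e he
      obtain ⟨_, ⟨i, rfl⟩, hi⟩ := Metric.mem_closure_iff.1 (hw z) (e / 2) (by linarith)
      rw [dist_eq_norm] at hi
      have h1 : dd ι (w i) ≤ ‖z - w i‖ := by
        have h2 : f i (w i) = f i (w i - z) := by rw [map_sub, hz', sub_zero]
        rw [← hf2, h2, norm_sub_rev]
        exact (le_abs_self _).trans ((hf1 i _).trans (dd_le ι _))
      have h2 : dd ι z ≤ dd ι (z - w i) + dd ι (w i) := by
        have := dd_add_le ι (z - w i) (w i)
        rwa [sub_add_cancel] at this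
      have h3 := dd_le ι (z - w i)
      linarith
    have hmem : z ∈ closure (range ι) := by
      rw [Metric.mem_closure_iff]
      intro e he
      obtain ⟨x, hx⟩ := exists_dd ι z (e := e / 2) (by linarith)
      refine ⟨ι x, ⟨x, rfl⟩, ?_⟩
      rw [dist_eq_norm]
      have := hd (e / 2) (by linarith)
      linarith
    rw [hclosed.closure_eq] at hmem
    exact hmem
  · rintro ⟨x, rfl⟩
    apply lp.ext
    funext i
    rw [opQ_apply]
    have h1 := hf1 i (ι x)
    rw [dd_iota] at h1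
    have h2 : f i (ι x) = 0 := abs_nonpos_iff.1 h1
    rw [h2, mul_zero]
    rfl

end Pool.Agent.H45.GS
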