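import Mathlib
import Pool.Agent.H45.GS.Q

open Set Filter Topology
open scoped ENNReal

namespace Pool.Agent.H45.GS

/-- `rt a c = √(a² + c²)`. -/
noncomputable def rt (a c : ℝ) : ℝ := Real.sqrt (a ^ 2 + c ^ 2)

lemma rt_nonneg (a c : ℝ) : 0 ≤ rt a c := Real.sqrt_nonneg _

lemma rt_eq (a c : ℝ) : rt a c = ‖(a : ℂ) + (c : ℂ) * Complex.I‖ := by
  rw [Complex.norm_add_mul_I]; rfl

lemma rt_mono {a a' c c' : ℝ} (ha : 0 ≤ a) (haa : a ≤ a') (hc : 0 ≤ c) (hcc : c ≤ c') :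
    rt a c ≤ rt a' c' :=
  Real.sqrt_le_sqrt (add_le_add (pow_le_pow_left₀ ha haa 2) (pow_le_pow_left₀ hc hcc 2))

lemma rt_convex (a a' c c' : ℝ) {p q : ℝ} (hp : 0 ≤ p) (hq : 0 ≤ q) :
    rt (p * a + q * a') (p * c + q * c') ≤ p * rt a c + q * rt a' c' := by
  rw [rt_eq, rt_eq, rt_eq]
  have h1 : ((p * a + q * a' : ℝ) : ℂ) + ((p * c + q * c' : ℝ) : ℂ) * Complex.I =
      (p : ℂ) * ((a : ℂ) + (c : ℂ) * Complex.I) + (q : ℂ) * ((a' : ℂ) + (c' : ℂ) * Complex.I) := by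
    push_cast; ring
  rw [h1]
  refine (norm_add_le _ _).trans ?_
  rw [norm_mul, norm_mul, Complex.norm_real, Complex.norm_real, Real.norm_of_nonneg hp,
    Real.norm_of_nonneg hq]

lemma le_rt {a : ℝ} (c : ℝ) : a ≤ rt a c :=
  Real.le_sqrt_of_sq_le (by have := sq_nonneg c; linarith)

lemma le_rt' {c : ℝ} (a : ℝ) : c ≤ rt a c :=
  Real.le_sqrt_of_sq_le (by have := sq_nonneg a; linarith)

lemma rt_zero_left {c : ℝ} (hc : 0 ≤ c) : rt 0 c = c := by
  unfold rt
  rw [zero_pow (by norm_num), zero_add, Real.sqrt_sq hc]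

lemma rt_second {a c a1 a2 c1 c2 s : ℝ} (hc : 0 < c)
    (h : (a1 ^ 2 + c1 ^ 2 + (a2 ^ 2 + c2 ^ 2)) / 2 ≤ a ^ 2 + c ^ 2 + s) (hs : 0 ≤ s) :
    rt a1 c1 + rt a2 c2 ≤ 2 * rt a c + s / c := by
  obtain ⟨r, hr⟩ : ∃ r, r = rt a c := ⟨_, rfl⟩
  have hrc : c ≤ r := by rw [hr]; exact le_rt' a
  have hr0 : 0 < r := hc.trans_le hrc
  have hrsq : r ^ 2 = a ^ 2 + c ^ 2 := by
    rw [hr]; exact Real.sq_sqrt (by positivity)
  have e1 : rt a1 c1 ^ 2 = a1 ^ 2 + c1 ^ 2 := Real.sq_sqrt (by positivity)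
  have e2 : rt a2 c2 ^ 2 = a2 ^ 2 + c2 ^ 2 := Real.sq_sqrt (by positivity)
  rw [← hr]
  have h1 : (rt a1 c1 + rt a2 c2) * r ≤ (2 * r + s / r) * r := by
    have e3 : (2 * r + s / r) * r = 2 * r ^ 2 + s := by field_simp
    rw [e3]
    nlinarith [sq_nonneg (rt a1 c1 - r), sq_nonneg (rt a2 c2 - r)]
  have h2 := le_of_mul_le_mul_right h1 hr0
  have h3 : s / r ≤ s / c := div_le_div_of_nonneg_left hs hc hrc
  linarith

section

variable {Z : Type*} [NormedAddCommGroup Z] [NormedSpace ℝ Z] (G : Z → ℝ) (S : L2 →L[ℝ] Z)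
  (Q : Z →L[ℝ] L2) (C : ℝ)

noncomputable def Hf (u : L2) (z : Z) : ℝ := G (z - S u) + C * rt ‖u‖ (‖Q z‖ ^ 2)

noncomputable def HH (z : Z) : ℝ := ⨅ u, Hf G S Q C u z

variable {G S Q C}

lemma Hf_nonneg (hC : 0 < C) (hG0 : ∀ z, 0 ≤ G z) (u : L2) (z : Z) : 0 ≤ Hf G S Q C u z :=
  add_nonneg (hG0 _) (mul_nonneg hC.le (rt_nonneg _ _))

lemma Hf_bdd (hC : 0 < C) (hG0 : ∀ z, 0 ≤ G z) (z : Z) :
    BddBelow (range fun u => Hf G S Q C u z) := by
  refine ⟨0, ?_⟩
  rintro _ ⟨u, rfl⟩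
  exact Hf_nonneg hC hG0 u z

lemma HH_le (hC : 0 < C) (hG0 : ∀ z, 0 ≤ G z) (u : L2) (z : Z) :
    HH G S Q C z ≤ Hf G S Q C u z := ciInf_le (Hf_bdd hC hG0 z) u

lemma HH_nonneg (hC : 0 < C) (hG0 : ∀ z, 0 ≤ G z) (z : Z) : 0 ≤ HH G S Q C z :=
  le_ciInf fun u => Hf_nonneg hC hG0 u z

lemma exists_Hf_lt (z : Z) {e : ℝ} (he : 0 < e) : ∃ u, Hf G S Q C u z < HH G S Q C z + e :=
  exists_lt_of_ciInf_lt (show HH G S Q C z < HH G S Q C z + e by linarith)

lemma HH_le_zero (hC : 0 < C) (hG0 : ∀ z, 0 ≤ G z) (z : Z) :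
    HH G S Q C z ≤ G z + C * ‖Q z‖ ^ 2 := by
  have := HH_le (S := S) (Q := Q) hC hG0 0 z
  unfold Hf at this
  rwa [map_zero, sub_zero, norm_zero, rt_zero_left (by positivity)] at this

lemma HH_convex (hC : 0 < C) (hG0 : ∀ z, 0 ≤ G z) (hG : ConvexOn ℝ univ G) :
    ConvexOn ℝ univ (HH G S Q C) := by
  refine marginal_convex (Hf_bdd hC hG0) ?_
  intro u u' z z' p q hp hq hpq
  unfold Hf
  have h1 : (p • z + q • z') - S (p • u + q • u') = p • (z - S u) + q • (z' - S u') := by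
    rw [map_add, map_smul, map_smul]
    module
  rw [h1]
  have h2 := hG.2 (mem_univ (z - S u)) (mem_univ (z' - S u')) hp hq hpq
  simp only [smul_eq_mul] at h2
  have h3 : rt ‖p • u + q • u'‖ (‖Q (p • z + q • z')‖ ^ 2) ≤
      p * rt ‖u‖ (‖Q z‖ ^ 2) + q * rt ‖u'‖ (‖Q z'‖ ^ 2) := by
    refine le_trans ?_ (rt_convex _ _ _ _ hp hq)
    refine rt_mono (norm_nonneg _) ?_ (by positivity) ?_
    · refine (norm_add_le _ _).trans ?_
      rw [norm_smul, norm_smul, Real.norm_of_nonneg hp, Real.norm_of_nonneg hq]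
    · rw [map_add, map_smul, map_smul]
      have := half_sq_convex (Q z) (Q z') hp hq hpq
      linarith
  have h4 := mul_le_mul_of_nonneg_left h3 hC.le
  linarith

lemma HH_neg_le (hC : 0 < C) (hG0 : ∀ z, 0 ≤ G z) (hGn : ∀ z, G (-z) = G z) (z : Z) :
    HH G S Q C (-z) ≤ HH G S Q C z := by
  refine le_of_forall_pos_le_add fun e he => ?_
  obtain ⟨u, hu⟩ := exists_Hf_lt (G := G) (S := S) (Q := Q) (C := C) z he
  have h := HH_le (S := S) (Q := Q) hC hG0 (-u) (-z)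
  unfold Hf at h hu
  rw [map_neg, map_neg, norm_neg, norm_neg] at h
  have h1 : -z - -S u = -(z - S u) := by abel
  rw [h1, hGn] at h
  linarith

lemma HH_neg (hC : 0 < C) (hG0 : ∀ z, 0 ≤ G z) (hGn : ∀ z, G (-z) = G z) (z : Z) :
    HH G S Q C (-z) = HH G S Q C z := by
  apply le_antisymm (HH_neg_le hC hG0 hGn z)
  have := HH_neg_le (S := S) (Q := Q) hC hG0 hGn (-z)
  rwa [neg_neg] at this

lemma HH_lip (hC : 0 < C) (hG0 : ∀ z, 0 ≤ G z) (hG : ConvexOn ℝ univ G) {B : ℝ}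
    (hB : 0 < B) (hGB : ∀ z, G z ≤ B * ‖z‖ ^ 2) (R : ℝ) :
    ∃ K, LipschitzOnWith K (HH G S Q C) (Metric.ball 0 R) := by
  refine ConvexOn.exists_lipschitzOnWith_of_isBounded (r := R + 1)
    ((HH_convex hC hG0 hG).subset (subset_univ _) (convex_ball _ _)) (by linarith) ?_
  rw [isBounded_iff_forall_norm_le]
  refine ⟨B * (|R| + 1) ^ 2 + C * (‖Q‖ * (|R| + 1)) ^ 2, ?_⟩
  rintro _ ⟨z, hz, rfl⟩
  rw [mem_ball_zero_iff] at hz
  have hz' : ‖z‖ ≤ |R| + 1 := by
    have := le_abs_self R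
    linarith
  rw [Real.norm_of_nonneg (HH_nonneg hC hG0 z)]
  refine (HH_le_zero hC hG0 z).trans (add_le_add ((hGB z).trans ?_) ?_)
  · exact mul_le_mul_of_nonneg_left (pow_le_pow_left₀ (norm_nonneg _) hz' 2) hB.le
  · refine mul_le_mul_of_nonneg_left (pow_le_pow_left₀ (norm_nonneg _) ?_ 2) hC.le
    exact (Q.le_opNorm z).trans (mul_le_mul_of_nonneg_left hz' (norm_nonneg _))

lemma HH_continuous (hC : 0 < C) (hG0 : ∀ z, 0 ≤ G z) (hG : ConvexOn ℝ univ G) {B : ℝ}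
    (hB : 0 < B) (hGB : ∀ z, G z ≤ B * ‖z‖ ^ 2) : Continuous (HH G S Q C) := by
  rw [continuous_iff_continuousAt]
  intro z
  obtain ⟨K, hK⟩ := HH_lip (S := S) (Q := Q) hC hG0 hG hB hGB (‖z‖ + 1)
  exact hK.continuousOn.continuousAt (Metric.isOpen_ball.mem_nhds (by
    rw [mem_ball_zero_iff]; linarith))

end

/-- **Extension theorem**: every equivalent Gateaux differentiable norm on `ℓ¹` extends to every
separable Banach superspace. -/
theorem exists_extension {Z : Type*} [NormedAddCommGroup Z] [NormedSpace ℝ Z] [CompleteSpace Z]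
    [TopologicalSpace.SeparableSpace Z] (ι : L1 →ₗᵢ[ℝ] Z) {N : L1 → ℝ} (hN : IsGNorm N) :
    ∃ M : Z → ℝ, IsGNorm M ∧ ∀ x, M (ι x) = N x := by
  obtain ⟨G, S, C, B, c, hC, hB, hc, hSd, hS, hGc, hG0, hGn, hGι, hGlow, hGsd, hGB, hGcoer⟩ :=
    exists_G ι hN
  obtain ⟨Q, hQ⟩ := exists_Q ι
  have hconv : ConvexOn ℝ univ (HH G S Q C) := HH_convex hC hG0 hGc
  have hcont : Continuous (HH G S Q C) := HH_continuous hC hG0 hGc hB hGB
  have hHι : ∀ x, N x ≤ 1 → HH G S Q C (ι x) = N x ^ 2 := by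
    intro x hx
    have hQx : Q (ι x) = 0 := (hQ _).2 ⟨x, rfl⟩
    apply le_antisymm
    · have := HH_le_zero (S := S) (Q := Q) hC hG0 (ι x)
      rw [hQx, norm_zero, hGι] at this
      simpa using this
    · refine le_ciInf fun u => ?_
      unfold Hf
      have h1 := hGlow x (S u) hx
      have h2 : ‖S u‖ ≤ rt ‖u‖ (‖Q (ι x)‖ ^ 2) := (hS u).trans (le_rt _)
      have h3 := mul_le_mul_of_nonneg_left h2 hC.le
      linarith
  have hH0 : HH G S Q C 0 = 0 := by
    have := hHι 0 (by rw [gnorm_zero hN]; norm_num)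
    rw [map_zero, gnorm_zero hN] at this
    simpa using this
  have hHι1 : ∀ x, 1 < N x → 1 < HH G S Q C (ι x) := by
    intro x hx
    have hx0 : 0 < N x := by linarith
    have h1 : N ((N x)⁻¹ • x) = 1 := by
      rw [hN.2.1, abs_of_pos (inv_pos.2 hx0), inv_mul_cancel₀ hx0.ne']
    have h2 := hHι _ h1.le
    rw [h1, map_smul] at h2
    have h3 := hconv.2 (mem_univ (ι x)) (mem_univ (0 : Z)) (inv_pos.2 hx0).le
      (sub_nonneg.2 (inv_le_one_of_one_le₀ hx.le)) (by ring : (N x)⁻¹ + (1 - (N x)⁻¹) = 1)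
    rw [smul_zero, add_zero, hH0, smul_zero, add_zero, smul_eq_mul, h2] at h3
    rw [inv_mul_eq_div, le_div_iff₀ hx0] at h3
    linarith
  have hsd : ∀ z, HH G S Q C z = 1 → ∀ h, SD (HH G S Q C) z h := by
    intro z hz h
    by_cases hQz : Q z = 0
    · obtain ⟨x, rfl⟩ := (hQ z).1 hQz
      have hx1 : N x ≤ 1 := by
        by_contra hcon
        push Not at hcon
        have := hHι1 x hcon
        linarith
      have hx2 : N x ^ 2 = 1 := by rw [← hHι x hx1, hz]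
      have hx0 : x ≠ 0 := by
        rintro rfl
        rw [gnorm_zero hN] at hx2
        norm_num at hx2
      have h1 := hGsd x hx0 h
      have h2 : SD (fun z => C * ‖Q z‖ ^ 2) (ι x) h := by
        refine sd_of_sq (C := 2 * C * ‖Q h‖ ^ 2) (d := 1) one_pos fun t ht _ => ?_
        rw [map_add, map_sub, hQz, zero_add, zero_sub, norm_neg, map_smul, norm_smul,
          Real.norm_of_nonneg ht.le, norm_zero]
        have : (t * ‖Q h‖) ^ 2 = t ^ 2 * ‖Q h‖ ^ 2 := by ring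
        rw [this]
        apply le_of_eq
        ring
      intro e he
      obtain ⟨d, hd, hd'⟩ := (h1.add h2) e he
      refine ⟨d, hd, fun t ht htd => ?_⟩
      have h3 := hd' t ht htd
      have h4 := HH_le_zero (S := S) (Q := Q) hC hG0 (ι x + t • h)
      have h5 := HH_le_zero (S := S) (Q := Q) hC hG0 (ι x - t • h)
      simp only at h3
      rw [hQz, norm_zero, hGι] at h3
      rw [hHι x hx1]
      nlinarith
    · obtain ⟨q0, hq0⟩ : ∃ q0, q0 = ‖Q z‖ ^ 2 := ⟨_, rfl⟩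
      have hq0pos : 0 < q0 := by
        rw [hq0]
        have := norm_pos_iff.2 hQz
        positivity
      obtain ⟨K, hK⟩ := HH_lip (S := S) (Q := Q) hC hG0 hGc hB hGB (‖z‖ + 1)
      refine sd_of_dense hSd (L := K) (r := 1) one_pos ?_ ?_ h
      · intro w w' hw hw'
        have hmem : ∀ w : Z, ‖w - z‖ < 1 → w ∈ Metric.ball (0 : Z) (‖z‖ + 1) := by
          intro w hw
          rw [mem_ball_zero_iff]
          have : ‖w‖ ≤ ‖w - z‖ + ‖z‖ := by
            have := norm_add_le (w - z) z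
            rwa [sub_add_cancel] at this
          linarith
        have h1 := hK.dist_le_mul w (hmem w hw) w' (hmem w' hw')
        rw [Real.dist_eq, dist_eq_norm] at h1
        exact (le_abs_self _).trans h1
      · intro v
        obtain ⟨β, hβ⟩ : ∃ β : ℝ, β = 2 * inner ℝ (Q z) (Q (S v)) := ⟨_, rfl⟩
        obtain ⟨γ, hγ⟩ : ∃ γ : ℝ, γ = ‖Q (S v)‖ ^ 2 := ⟨_, rfl⟩
        have hγ0 : 0 ≤ γ := by rw [hγ]; positivity
        obtain ⟨M, hM⟩ : ∃ M : ℝ, M = ‖v‖ ^ 2 + 2 * q0 * γ + γ ^ 2 + β ^ 2 := ⟨_, rfl⟩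
        have hM0 : 0 ≤ M := by rw [hM]; positivity
        refine ⟨C * (M / q0), 1, one_pos, fun t ht ht1 => ?_⟩
        have key : HH G S Q C (z + t • S v) + HH G S Q C (z - t • S v) ≤
            C * (M / q0) * t ^ 2 + 2 * HH G S Q C z := by
          refine le_of_forall_pos_le_add fun e he => ?_
          obtain ⟨u, hu⟩ := exists_Hf_lt (G := G) (S := S) (Q := Q) (C := C) z (half_pos he)
          have h1 := HH_le (S := S) (Q := Q) hC hG0 (u + t • v) (z + t • S v)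
          have h2 := HH_le (S := S) (Q := Q) hC hG0 (u - t • v) (z - t • S v)
          unfold Hf at h1 h2 hu
          rw [map_add, map_smul] at h1
          rw [map_sub, map_smul] at h2
          have e1 : z + t • S v - (S u + t • S v) = z - S u := by abel
          have e2 : z - t • S v - (S u - t • S v) = z - S u := by abel
          rw [e1] at h1
          rw [e2] at h2
          have hq1 : ‖Q (z + t • S v)‖ ^ 2 = q0 + t * β + t ^ 2 * γ := by
            rw [map_add, map_smul, norm_add_sq_real, inner_smul_right, norm_smul,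
              Real.norm_of_nonneg ht.le, hq0, hβ, hγ]
            ring
          have hq2 : ‖Q (z - t • S v)‖ ^ 2 = q0 - t * β + t ^ 2 * γ := by
            rw [map_sub, map_smul, norm_sub_sq_real, inner_smul_right, norm_smul,
              Real.norm_of_nonneg ht.le, hq0, hβ, hγ]
            ring
          rw [hq1] at h1
          rw [hq2] at h2
          rw [← hq0] at hu
          have hpar := parallelogram_law_with_norm ℝ u (t • v)
          have htv : ‖t • v‖ ^ 2 = t ^ 2 * ‖v‖ ^ 2 := by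
            rw [norm_smul, Real.norm_of_nonneg ht.le, mul_pow]
          rw [htv] at hpar
          have hsum := rt_second (a := ‖u‖) (c := q0) (a1 := ‖u + t • v‖)
            (c1 := q0 + t * β + t ^ 2 * γ) (a2 := ‖u - t • v‖) (c2 := q0 - t * β + t ^ 2 * γ)
            (s := t ^ 2 * M) hq0pos (by
              have ht2 : t ^ 2 ≤ 1 := by nlinarith
              have h3 : (t ^ 2 * γ) ^ 2 ≤ t ^ 2 * γ ^ 2 := by
                have : (t ^ 2 * γ) ^ 2 = t ^ 2 * (t ^ 2 * γ ^ 2) := by ring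
                rw [this]
                apply mul_le_mul_of_nonneg_left _ (by positivity)
                have := mul_le_mul_of_nonneg_right ht2 (sq_nonneg γ)
                linarith
              rw [hM]
              nlinarith) (by positivity)
          have h3 := mul_le_mul_of_nonneg_left hsum hC.le
          have h4 : C * (t ^ 2 * M / q0) = C * (M / q0) * t ^ 2 := by ring
          rw [mul_add, mul_add, h4] at h3
          linarith
        linarith
  have hcoer : ∃ R : ℝ, ∀ z, HH G S Q C z ≤ 1 → ‖z‖ ≤ R := by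
    refine ⟨Real.sqrt (2 / c) + 2 / C, fun z hz => ?_⟩
    obtain ⟨u, hu⟩ := exists_Hf_lt (G := G) (S := S) (Q := Q) (C := C) z one_pos
    unfold Hf at hu
    have h1 : G (z - S u) + C * rt ‖u‖ (‖Q z‖ ^ 2) < 2 := by linarith
    have h2 : ‖u‖ ≤ 2 / C := by
      rw [le_div_iff₀ hC]
      have h3 := mul_le_mul_of_nonneg_left (le_rt (a := ‖u‖) (‖Q z‖ ^ 2)) hC.le
      have h4 := hG0 (z - S u)
      linarith
    have h3 : ‖z - S u‖ ≤ Real.sqrt (2 / c) := by
      apply Real.le_sqrt_of_sq_le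
      rw [le_div_iff₀ hc]
      have h4 := hGcoer (z - S u)
      have h5 := mul_nonneg hC.le (rt_nonneg ‖u‖ (‖Q z‖ ^ 2))
      linarith
    have h4 : ‖z‖ ≤ ‖z - S u‖ + ‖S u‖ := by
      have := norm_add_le (z - S u) (S u)
      rwa [sub_add_cancel] at this
    have h5 := hS u
    linarith
  obtain ⟨M, hM, hM1⟩ := gauge_gnorm hconv hcont (HH_neg hC hG0 hGn) hH0 hcoer hsd
  refine ⟨M, hM, ?_⟩
  have hiff : ∀ x, M (ι x) ≤ 1 ↔ N x ≤ 1 := by
    intro x
    rw [hM1]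
    constructor
    · intro h
      by_contra hcon
      push Not at hcon
      have := hHι1 x hcon
      linarith
    · intro h
      rw [hHι x h]
      have := gnorm_nonneg hN x
      nlinarith
  intro x
  rcases eq_or_ne x 0 with rfl | hx
  · rw [map_zero, gnorm_zero hN, gnorm_zero hM]
  have hNx : 0 < N x := by
    obtain ⟨a, b, ha, hab⟩ := hN.2.2.1
    exact (mul_pos ha (norm_pos_iff.2 hx)).trans_le (hab x).1
  have hMx : 0 < M (ι x) := by
    obtain ⟨a, b, ha, hab⟩ := hM.2.2.1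
    have : ι x ≠ 0 := by
      intro h
      exact hx (ι.injective (by rw [h, map_zero]))
    exact (mul_pos ha (norm_pos_iff.2 this)).trans_le (hab _).1
  apply le_antisymm
  · have h1 := (hiff ((N x)⁻¹ • x)).2 (by
      rw [hN.2.1, abs_of_pos (inv_pos.2 hNx), inv_mul_cancel₀ hNx.ne'])
    rw [map_smul, hM.2.1, abs_of_pos (inv_pos.2 hNx), inv_mul_le_iff₀ hNx, mul_one] at h1
    exact h1
  · have h1 := (hiff ((M (ι x))⁻¹ • x)).1 (by
      rw [map_smul, hM.2.1, abs_of_pos (inv_pos.2 hMx), inv_mul_cancel₀ hMx.ne'])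
    rw [hN.2.1, abs_of_pos (inv_pos.2 hMx), inv_mul_le_iff₀ hMx, mul_one] at h1
    exact h1

end Pool.Agent.H45.GS
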